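import Mathlib

/-!
# The core of the reduction
-/

set_option autoImplicit false
set_option linter.unusedSimpArgs false

namespace Pool.Agent.Q231.Seg

/-- keys of endpoints: segment, group, class, index -/
abbrev Key : Type := ℕ × ℕ × ℕ × ℕ

/-- the lexicographic order -/
def lt4 (a b : Key) : Prop :=
  a.1 < b.1 ∨ (a.1 = b.1 ∧ (a.2.1 < b.2.1 ∨ (a.2.1 = b.2.1 ∧ (a.2.2.1 < b.2.2.1 ∨
    (a.2.2.1 = b.2.2.1 ∧ a.2.2.2 < b.2.2.2)))))

/-- intersecting pairs of keys -/
def CrossK (a b : Key × Key) : Prop :=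
  (lt4 a.1 b.1 ∧ lt4 b.1 a.2 ∧ lt4 a.2 b.2) ∨ (lt4 b.1 a.1 ∧ lt4 a.1 b.2 ∧ lt4 b.2 a.2)

theorem lex_step {a x a' x' B : ℕ} (hx : x < B) (hx' : x' < B) :
    a * B + x < a' * B + x' ↔ a < a' ∨ (a = a' ∧ x < x') := by
  rcases lt_trichotomy a a' with h | h | h
  · have : (a + 1) * B ≤ a' * B := Nat.mul_le_mul_right _ h
    have h2 : (a + 1) * B = a * B + B := by ring
    constructor
    · intro _; exact Or.inl h
    · intro _; omega
  · subst h
    constructor
    · intro h1; exact Or.inr ⟨rfl, by omega⟩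
    · intro h1; omega
  · have : (a' + 1) * B ≤ a * B := Nat.mul_le_mul_right _ h
    have h2 : (a' + 1) * B = a' * B + B := by ring
    constructor
    · intro _; omega
    · intro h1; omega

section
variable (N : ℕ) (E g : ℕ → ℕ)

/-- the six families of chords -/
def chk (f : Fin 6) (p : ℕ) : Key × Key :=
  match f with
  | 0 => ((0, E p, 2, p), (1, p / 3, 1, E p))
  | 1 => ((0, E p, 1, g p * N + p), (2, g p + 1, 1, p))
  | 2 => ((1, p / 3, 2, p % 3), (2, p % 3 + 1, 0, p / 3))
  | 3 => ((0, N, 3, p), (1, p / 3, 0, p))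
  | 4 => ((1, p / 3, 3, p), (2, 0, 0, p))
  | 5 => ((0, E p, 0, p), (2, 4, 0, E p * N + p))

theorem chk_0 (p : ℕ) : chk N E g 0 p = ((0, E p, 2, p), (1, p / 3, 1, E p)) := rfl
theorem chk_1 (p : ℕ) : chk N E g 1 p = ((0, E p, 1, g p * N + p), (2, g p + 1, 1, p)) := rfl
theorem chk_2 (p : ℕ) : chk N E g 2 p = ((1, p / 3, 2, p % 3), (2, p % 3 + 1, 0, p / 3)) := rfl
theorem chk_3 (p : ℕ) : chk N E g 3 p = ((0, N, 3, p), (1, p / 3, 0, p)) := rfl
theorem chk_4 (p : ℕ) : chk N E g 4 p = ((1, p / 3, 3, p), (2, 0, 0, p)) := rfl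
theorem chk_5 (p : ℕ) : chk N E g 5 p = ((0, E p, 0, p), (2, 4, 0, E p * N + p)) := rfl

end

theorem eq_of_sum {K : ℕ} {f h : Fin K → ℕ} (hle : ∀ k, f k ≤ h k) (hs : ∑ k, h k ≤ ∑ k, f k) :
    ∀ k, f k = h k := by
  have h1 : ∑ k, f k = ∑ k, h k := le_antisymm (Finset.sum_le_sum fun k _ => hle k) hs
  have h2 := (Finset.sum_eq_sum_iff_of_le (fun k _ => hle k)).1 h1
  exact fun k => h2 k (Finset.mem_univ k)

theorem eq_of_perm {K : ℕ} {f : Fin K → ℕ} {a b : Fin K → Fin K} (ha : Function.Bijective a)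
    (hb : Function.Bijective b) (h : ∀ p p', a p = b p' → f p ≤ f p') :
    ∀ p p', a p = b p' → f p = f p' := by
  have h1 := eq_of_sum (f := fun k => f ((Equiv.ofBijective a ha).symm k))
    (h := fun k => f ((Equiv.ofBijective b hb).symm k)) (by
      intro k
      apply h
      have h2 : a ((Equiv.ofBijective a ha).symm k) = k := (Equiv.ofBijective a ha).apply_symm_apply k
      have h3 : b ((Equiv.ofBijective b hb).symm k) = k := (Equiv.ofBijective b hb).apply_symm_apply k
      rw [h2, h3]) (by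
      rw [Equiv.sum_comp (Equiv.ofBijective a ha).symm f,
        Equiv.sum_comp (Equiv.ofBijective b hb).symm f])
  intro p p' hpp
  have h4 := h1 (a p)
  have h5 : (Equiv.ofBijective a ha).symm (a p) = p := (Equiv.ofBijective a ha).symm_apply_apply p
  have h6 : (Equiv.ofBijective b hb).symm (b p') = p' :=
    (Equiv.ofBijective b hb).symm_apply_apply p'
  rw [hpp] at h4
  rw [hpp] at h5
  simp only [h5, h6] at h4
  exact h4

variable {N m : ℕ} {E g : ℕ → ℕ}

theorem core_to (hN : 3 * m ≤ N) (hE : ∀ p < 3 * m, E p < N) (hE3 : ∀ p < 3 * m, E p % 3 = p % 3)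
    (hg : ∀ p < 3 * m, g p < 3)
    (hsum : ∑ p : Fin (3 * m), g p ≤ ∑ p : Fin (3 * m), (p : ℕ) % 3)
    (col : Fin 6 → Fin (3 * m) → Fin (3 * m))
    (hcol : ∀ f f' (p p' : Fin (3 * m)), CrossK (chk N E g f p) (chk N E g f' p') →
      col f p ≠ col f' p') :
    ∃ A B : Equiv.Perm (Fin (3 * m)), (∀ p, (A p : ℕ) / 3 = (p : ℕ) / 3) ∧
      (∀ p, E (B p) = E p) ∧ ∀ p, (A p : ℕ) % 3 = g (B p) := by
  have hlt : ∀ p : Fin (3 * m), (p : ℕ) < N := fun p => lt_of_lt_of_le p.2 hN
  have hEN : ∀ p : Fin (3 * m), E p < N := fun p => hE p p.2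
  have hgN : ∀ p : Fin (3 * m), g p < 3 := fun p => hg p p.2
  have inj_of : ∀ f : Fin 6, (∀ p p' : Fin (3 * m), p ≠ p' → col f p = col f p' →
      CrossK (chk N E g f p) (chk N E g f p')) → Function.Bijective (col f) := by
    intro f h
    apply Finite.injective_iff_bijective.1
    intro p p' hpp
    by_contra hne
    exact hcol f f p p' (h p p' hne hpp) hpp
  -- the cliques
  have hR : Function.Bijective (col 3) := by
    apply inj_of
    intro p p' hne _
    have hne' : (p : ℕ) ≠ p' := fun h => hne (Fin.ext h)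
    simp only [CrossK, chk_0, chk_1, chk_2, chk_3, chk_4, chk_5, lt4, true_and, and_true]
    omega
  have hS : Function.Bijective (col 4) := by
    apply inj_of
    intro p p' hne _
    have hne' : (p : ℕ) ≠ p' := fun h => hne (Fin.ext h)
    simp only [CrossK, chk_0, chk_1, chk_2, chk_3, chk_4, chk_5, lt4, true_and, and_true]
    omega
  have hT : Function.Bijective (col 5) := by
    apply inj_of
    intro p p' hne _
    have hne' : (p : ℕ) ≠ p' := fun h => hne (Fin.ext h)
    have h1 := lex_step (a := E p) (a' := E p') (hlt p) (hlt p')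
    have h2 := lex_step (a := E p') (a' := E p) (hlt p') (hlt p)
    simp only [CrossK, chk_0, chk_1, chk_2, chk_3, chk_4, chk_5, lt4, true_and, and_true]
    generalize E p * N + p = u at *
    generalize E p' * N + p' = v at *
    omega
  -- segment 1
  have hRS : ∀ p p', col 3 p = col 4 p' → (p : ℕ) / 3 = (p' : ℕ) / 3 := by
    apply eq_of_perm (f := fun p : Fin (3 * m) => (p : ℕ) / 3) hR hS
    intro p p' hpp
    by_contra hlt'
    refine hcol 3 4 p p' ?_ hpp
    simp only [CrossK, chk_0, chk_1, chk_2, chk_3, chk_4, chk_5, lt4, true_and, and_true]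
    omega
  have hjx : ∀ p q : Fin (3 * m), col 0 p = col 3 q → (p : ℕ) / 3 = (q : ℕ) / 3 := by
    intro p q hpq
    obtain ⟨s, hs⟩ := hS.2 (col 3 q)
    have h1 := hRS q s hs.symm
    have h2 : ¬ ((p : ℕ) / 3 < (q : ℕ) / 3) := by
      intro h
      refine hcol 0 3 p q ?_ hpq
      have := hEN p
      simp only [CrossK, chk_0, chk_1, chk_2, chk_3, chk_4, chk_5, lt4, true_and, and_true]
      omega
    have h3 : ¬ ((s : ℕ) / 3 < (p : ℕ) / 3) := by
      intro h
      refine hcol 0 4 p s ?_ (hpq.trans hs.symm)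
      simp only [CrossK, chk_0, chk_1, chk_2, chk_3, chk_4, chk_5, lt4, true_and, and_true]
      omega
    omega
  have hjz : ∀ p q : Fin (3 * m), col 2 p = col 3 q → (p : ℕ) / 3 = (q : ℕ) / 3 := by
    intro p q hpq
    obtain ⟨s, hs⟩ := hS.2 (col 3 q)
    have h1 := hRS q s hs.symm
    have h2 : ¬ ((p : ℕ) / 3 < (q : ℕ) / 3) := by
      intro h
      refine hcol 2 3 p q ?_ hpq
      simp only [CrossK, chk_0, chk_1, chk_2, chk_3, chk_4, chk_5, lt4, true_and, and_true]
      omega
    have h3 : ¬ ((s : ℕ) / 3 < (p : ℕ) / 3) := by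
      intro h
      refine hcol 2 4 p s ?_ (hpq.trans hs.symm)
      simp only [CrossK, chk_0, chk_1, chk_2, chk_3, chk_4, chk_5, lt4, true_and, and_true]
      omega
    omega
  have hX : Function.Bijective (col 0) := by
    apply inj_of
    intro p p' hne hpp
    obtain ⟨q, hq⟩ := hR.2 (col 0 p)
    have h1 := hjx p q hq.symm
    have h2 := hjx p' q (by rw [hq, hpp])
    have h3 := hE3 p p.2
    have h4 := hE3 p' p'.2
    have hne' : (p : ℕ) ≠ p' := fun h => hne (Fin.ext h)
    have h5 : E p ≠ E p' := fun h => by rw [h] at h3; omega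
    simp only [CrossK, chk_0, chk_1, chk_2, chk_3, chk_4, chk_5, lt4, true_and, and_true]
    omega
  have hZ : Function.Bijective (col 2) := by
    apply inj_of
    intro p p' hne hpp
    obtain ⟨q, hq⟩ := hR.2 (col 2 p)
    have h1 := hjz p q hq.symm
    have h2 := hjz p' q (by rw [hq, hpp])
    have hne' : (p : ℕ) ≠ p' := fun h => hne (Fin.ext h)
    simp only [CrossK, chk_0, chk_1, chk_2, chk_3, chk_4, chk_5, lt4, true_and, and_true]
    omega
  -- segment 2
  have hTX : ∀ p p', col 5 p = col 0 p' → E p = E p' := by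
    apply eq_of_perm (f := fun p : Fin (3 * m) => E p) hT hX
    intro p p' hpp
    by_contra hlt'
    refine hcol 5 0 p p' ?_ hpp
    simp only [CrossK, chk_0, chk_1, chk_2, chk_3, chk_4, chk_5, lt4, true_and, and_true]
    omega
  have hEy : ∀ p q : Fin (3 * m), col 1 p = col 0 q → E p = E q := by
    intro p q hpq
    obtain ⟨s, hs⟩ := hT.2 (col 0 q)
    have h1 := hTX s q hs
    have h2 : ¬ (E q < E p) := by
      intro h
      refine hcol 1 0 p q ?_ hpq
      simp only [CrossK, chk_0, chk_1, chk_2, chk_3, chk_4, chk_5, lt4, true_and, and_true]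
      omega
    have h3 : ¬ (E p < E s) := by
      intro h
      refine hcol 1 5 p s ?_ (hpq.trans hs.symm)
      have := hgN p
      simp only [CrossK, chk_0, chk_1, chk_2, chk_3, chk_4, chk_5, lt4, true_and, and_true]
      omega
    omega
  have hY : Function.Bijective (col 1) := by
    apply inj_of
    intro p p' hne hpp
    obtain ⟨q, hq⟩ := hX.2 (col 1 p)
    have h1 := hEy p q hq.symm
    have h2 := hEy p' q (by rw [hq, hpp])
    have hne' : (p : ℕ) ≠ p' := fun h => hne (Fin.ext h)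
    have h3 := lex_step (a := g p) (a' := g p') (hlt p) (hlt p')
    have h4 := lex_step (a := g p') (a' := g p) (hlt p') (hlt p)
    simp only [CrossK, chk_0, chk_1, chk_2, chk_3, chk_4, chk_5, lt4, true_and, and_true]
    generalize g p * N + p = u at *
    generalize g p' * N + p' = v at *
    omega
  -- segment 3
  have hZY : ∀ p p', col 2 p = col 1 p' → ¬ (g p' < (p : ℕ) % 3) := by
    intro p p' hpp h
    refine hcol 2 1 p p' ?_ hpp
    simp only [CrossK, chk_0, chk_1, chk_2, chk_3, chk_4, chk_5, lt4, true_and, and_true]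
    omega
  let ξ := Equiv.ofBijective (col 0) hX
  let υ := Equiv.ofBijective (col 1) hY
  let ζ := Equiv.ofBijective (col 2) hZ
  have hυ : ∀ k, col 1 (υ.symm k) = k := fun k => υ.apply_symm_apply k
  have hζ : ∀ k, col 2 (ζ.symm k) = k := fun k => ζ.apply_symm_apply k
  have hξ : ∀ k, ξ k = col 0 k := fun k => rfl
  have hfin : ∀ k, ((ζ.symm k : Fin (3 * m)) : ℕ) % 3 = g (υ.symm k) := by
    apply eq_of_sum
    · intro k
      have := hZY (ζ.symm k) (υ.symm k) (by rw [hυ, hζ])
      omega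
    · rw [Equiv.sum_comp υ.symm (fun p : Fin (3 * m) => g p),
        Equiv.sum_comp ζ.symm (fun p : Fin (3 * m) => (p : ℕ) % 3)]
      exact hsum
  refine ⟨ξ.trans ζ.symm, ξ.trans υ.symm, ?_, ?_, ?_⟩
  · intro p
    obtain ⟨q, hq⟩ := hR.2 (col 0 p)
    rw [hjx p q hq.symm]
    apply hjz
    rw [hq]
    exact hζ _
  · intro p
    apply hEy
    exact hυ _
  · intro p
    exact hfin _

/-- what is known about the chord with index `p` of a family in the colour class `k` -/
def fact (E g : ℕ → ℕ) (f : Fin 6) (p k c : ℕ) : Prop :=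
  match f with
  | 0 => p = k
  | 1 => E p = E k ∧ g p = c
  | 2 => p / 3 = k / 3 ∧ p % 3 = c
  | 3 => p = k
  | 4 => p = k
  | 5 => p = k

theorem fact_0 (p k c : ℕ) : fact E g 0 p k c = (p = k) := rfl
theorem fact_1 (p k c : ℕ) : fact E g 1 p k c = (E p = E k ∧ g p = c) := rfl
theorem fact_2 (p k c : ℕ) : fact E g 2 p k c = (p / 3 = k / 3 ∧ p % 3 = c) := rfl
theorem fact_3 (p k c : ℕ) : fact E g 3 p k c = (p = k) := rfl
theorem fact_4 (p k c : ℕ) : fact E g 4 p k c = (p = k) := rfl
theorem fact_5 (p k c : ℕ) : fact E g 5 p k c = (p = k) := rfl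

theorem nocross (f f' : Fin 6) {p p' k c : ℕ} (hf : fact E g f p k c) (hf' : fact E g f' p' k c)
    (hff : f = f' → p = p') (hEp : E p < N) (hEp' : E p' < N) (hEk : E k < N) (hc : c < 3) :
    ¬ CrossK (chk N E g f p) (chk N E g f' p') := by
  by_cases h : f = f'
  · subst h
    obtain rfl := hff rfl
    simp only [CrossK, lt4]
    omega
  · fin_cases f <;> fin_cases f' <;>
      simp only [Fin.zero_eta, Fin.mk_one, Fin.reduceFinMk, fact_0, fact_1, fact_2, fact_3, fact_4,
        fact_5, not_true_eq_false] at hf hf' h <;>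
      simp only [Fin.zero_eta, Fin.mk_one, Fin.reduceFinMk, CrossK, chk_0, chk_1, chk_2, chk_3,
        chk_4, chk_5, lt4, true_and, and_true] <;>
      first
      | (subst hf; subst hf'; omega)
      | (subst hf; omega)
      | (subst hf'; omega)
      | omega

theorem core_of (hE : ∀ p < 3 * m, E p < N)
    {A B : Equiv.Perm (Fin (3 * m))} (hA : ∀ p, (A p : ℕ) / 3 = (p : ℕ) / 3)
    (hB : ∀ p, E (B p) = E p) (hAB : ∀ p, (A p : ℕ) % 3 = g (B p)) :
    ∃ col : Fin 6 → Fin (3 * m) → Fin (3 * m),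
      ∀ f f' (p p' : Fin (3 * m)), CrossK (chk N E g f p) (chk N E g f' p') →
        col f p ≠ col f' p' := by
  let col : Fin 6 → Fin (3 * m) → Fin (3 * m) := fun f p =>
    match f with
    | 0 => p
    | 1 => B.symm p
    | 2 => A.symm p
    | 3 => p
    | 4 => p
    | 5 => p
  have hfact : ∀ f (p : Fin (3 * m)), fact E g f p (col f p) ((A (col f p) : ℕ) % 3) := by
    intro f p
    fin_cases f
    · rfl
    · show E p = E (B.symm p) ∧ g p = (A (B.symm p) : ℕ) % 3
      have h1 := hB (B.symm p)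
      have h2 := hAB (B.symm p)
      rw [B.apply_symm_apply] at h1 h2
      exact ⟨h1, h2.symm⟩
    · show (p : ℕ) / 3 = ((A.symm p : Fin (3 * m)) : ℕ) / 3 ∧ (p : ℕ) % 3 = (A (A.symm p) : ℕ) % 3
      have h1 := hA (A.symm p)
      rw [A.apply_symm_apply] at h1
      rw [A.apply_symm_apply]
      exact ⟨h1, rfl⟩
    · rfl
    · rfl
    · rfl
  have hinj : ∀ f, Function.Injective (col f) := by
    intro f
    fin_cases f
    · exact fun _ _ h => h
    · exact B.symm.injective
    · exact A.symm.injective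
    · exact fun _ _ h => h
    · exact fun _ _ h => h
    · exact fun _ _ h => h
  refine ⟨col, ?_⟩
  intro f f' p p' hc h
  have h1 := hfact f p
  have h2 := hfact f' p'
  rw [← h] at h2
  refine nocross f f' h1 h2 ?_ (hE p p.2) (hE p' p'.2) (hE _ (col f p).2)
    (Nat.mod_lt _ (by norm_num)) hc
  rintro rfl
  rw [hinj f h]

end Pool.Agent.Q231.Seg
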