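import Pool.Agent.Q231.Seg.Tdm
import Pool.Agent.Q231.Seg.Core

/-!
# Exact covers and pairs of permutations
-/

set_option autoImplicit false
set_option linter.unusedSimpArgs false

namespace Pool.Agent.Q231.Seg

open Pool.Agent.NPC Pool.Agent.NPC.H632

/-- the list of the elements of the triples -/
def occL (T : List (ℕ × ℕ × ℕ)) : List ℕ := T.flatMap el

/-- the element with index `p` -/
def elt (T : List (ℕ × ℕ × ℕ)) (p : ℕ) : ℕ := (occL T).getD p 0

/-- the third label of the chord with index `p` of the second family -/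
noncomputable def gam (T : List (ℕ × ℕ × ℕ)) (p : ℕ) : ℕ :=
  if index (occL T) (elt T p) = p then p % 3 else (p % 3 + 1) % 3

theorem occL_length (T : List (ℕ × ℕ × ℕ)) : (occL T).length = 3 * T.length := by
  unfold occL
  induction T with
  | nil => rfl
  | cons t T ih =>
    rw [List.flatMap_cons, List.length_append, ih, List.length_cons]
    show 3 + _ = _
    ring

theorem occL_getElem? {T : List (ℕ × ℕ × ℕ)} (j r : ℕ) (hr : r < 3) :
    (occL T)[3 * j + r]? = (T[j]?).bind (fun t => (el t)[r]?) := by
  unfold occL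
  induction T generalizing j with
  | nil => simp
  | cons t T ih =>
    rw [List.flatMap_cons]
    cases j with
    | zero =>
      rw [List.getElem?_append_left (by show 3 * 0 + r < 3; omega)]
      simp
    | succ j =>
      rw [List.getElem?_append_right (by show 3 ≤ 3 * (j + 1) + r; omega)]
      have : 3 * (j + 1) + r - (el t).length = 3 * j + r := by
        show 3 * (j + 1) + r - 3 = 3 * j + r
        omega
      rw [this, ih]
      simp

theorem elt_eq {T : List (ℕ × ℕ × ℕ)} {j r : ℕ} (hr : r < 3) {t : ℕ × ℕ × ℕ} (hj : T[j]? = some t)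
    {e : ℕ} (he : (el t)[r]? = some e) : elt T (3 * j + r) = e := by
  unfold elt
  rw [List.getD_eq_getElem?_getD, occL_getElem? j r hr, hj]
  simp [he]

theorem elt_mem {T : List (ℕ × ℕ × ℕ)} {p : ℕ} (hp : p < 3 * T.length) :
    ∃ t, T[p / 3]? = some t ∧ (el t)[p % 3]? = some (elt T p) ∧ t ∈ T := by
  have hj : p / 3 < T.length := by omega
  refine ⟨T[p / 3], List.getElem?_eq_getElem hj, ?_, List.getElem_mem hj⟩
  have h3 : p % 3 < (el (T[p / 3])).length := Nat.mod_lt _ (by norm_num)
  have h1 := elt_eq (T := T) (j := p / 3) (r := p % 3) (Nat.mod_lt _ (by norm_num))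
    (List.getElem?_eq_getElem hj) (List.getElem?_eq_getElem h3)
  have h2 : 3 * (p / 3) + p % 3 = p := Nat.div_add_mod p 3
  rw [h2] at h1
  rw [h1]
  exact List.getElem?_eq_getElem h3

variable {T : List (ℕ × ℕ × ℕ)} {q : ℕ}

theorem elt_lt (hT : RolePr (T, q)) {p : ℕ} (hp : p < 3 * T.length) : elt T p < 3 * q := by
  obtain ⟨t, _, h2, h3⟩ := elt_mem hp
  exact (hT.1 t h3).2.2.2 _ (List.mem_of_getElem? h2)

theorem elt_mod (hT : RolePr (T, q)) {p : ℕ} (hp : p < 3 * T.length) : elt T p % 3 = p % 3 := by
  obtain ⟨t, _, h2, h3⟩ := elt_mem hp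
  obtain ⟨a1, a2, a3, _⟩ := hT.1 t h3
  have h4 : p % 3 = 0 ∨ p % 3 = 1 ∨ p % 3 = 2 := by omega
  rcases h4 with h | h | h
  · rw [h] at h2 ⊢
    simp only [el, List.getElem?_cons_zero, Option.some.injEq] at h2
    rw [← h2]; exact a1
  · rw [h] at h2 ⊢
    simp only [el, List.getElem?_cons_succ, List.getElem?_cons_zero, Option.some.injEq] at h2
    rw [← h2]; exact a2
  · rw [h] at h2 ⊢
    simp only [el, List.getElem?_cons_succ, List.getElem?_cons_zero, Option.some.injEq] at h2
    rw [← h2]; exact a3

theorem mem_occL (hT : RolePr (T, q)) {e : ℕ} (he : e < 3 * q) : e ∈ occL T := by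
  obtain ⟨t, ht, h⟩ := hT.2 e he
  exact List.mem_flatMap.2 ⟨t, ht, h⟩

theorem index_lt' (hT : RolePr (T, q)) {e : ℕ} (he : e < 3 * q) :
    index (occL T) e < 3 * T.length := by
  have := index_lt (mem_occL hT he)
  rwa [occL_length] at this

theorem elt_index (hT : RolePr (T, q)) {e : ℕ} (he : e < 3 * q) :
    elt T (index (occL T) e) = e := by
  unfold elt
  rw [List.getD_eq_getElem?_getD, getElem?_index (mem_occL hT he)]
  rfl

theorem gam_lt (p : ℕ) : gam T p < 3 := by
  unfold gam
  split_ifs <;> exact Nat.mod_lt _ (by norm_num)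

/-! ### The sum of the labels -/

def del (r : ℕ) : ℤ := if r % 3 = 2 then -2 else 1

theorem sum_del (n : ℕ) : ∑ p ∈ Finset.range (3 * n), del p = 0 := by
  induction n with
  | zero => simp
  | succ n ih =>
    rw [show 3 * (n + 1) = 3 * n + 1 + 1 + 1 by ring, Finset.sum_range_succ, Finset.sum_range_succ,
      Finset.sum_range_succ, ih]
    have h0 : (3 * n) % 3 ≠ 2 := by omega
    have h1 : (3 * n + 1) % 3 ≠ 2 := by omega
    have h2 : (3 * n + 1 + 1) % 3 = 2 := by omega
    simp only [del, if_neg h0, if_neg h1, if_pos h2]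
    norm_num

open Classical in
theorem sum_gam (hT : RolePr (T, q)) :
    ∑ p : Fin (3 * T.length), gam T p = ∑ p : Fin (3 * T.length), (p : ℕ) % 3 := by
  rw [Fin.sum_univ_eq_sum_range (fun p => gam T p), Fin.sum_univ_eq_sum_range (fun p => p % 3)]
  have h1 : ∀ p, (gam T p : ℤ) = ((p % 3 : ℕ) : ℤ) + (del p -
      (if index (occL T) (elt T p) = p then del p else 0)) := by
    intro p
    unfold gam del
    have h3 : p % 3 = 0 ∨ p % 3 = 1 ∨ p % 3 = 2 := by omega
    split_ifs <;> rcases h3 with h | h | h <;> simp [h] at * 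
  have h2 : ∑ p ∈ Finset.range (3 * T.length),
      (if index (occL T) (elt T p) = p then del p else 0) = 0 := by
    rw [← Finset.sum_filter]
    rw [← sum_del q]
    refine Finset.sum_bij' (fun p _ => elt T p) (fun e _ => index (occL T) e) ?_ ?_ ?_ ?_ ?_
    · intro p hp
      rw [Finset.mem_filter, Finset.mem_range] at hp
      exact Finset.mem_range.2 (elt_lt hT hp.1)
    · intro e he
      rw [Finset.mem_range] at he
      rw [Finset.mem_filter, Finset.mem_range]
      refine ⟨index_lt' hT he, ?_⟩
      rw [elt_index hT he]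
    · intro p hp
      rw [Finset.mem_filter, Finset.mem_range] at hp
      exact hp.2
    · intro e he
      rw [Finset.mem_range] at he
      exact elt_index hT he
    · intro p hp
      rw [Finset.mem_filter, Finset.mem_range] at hp
      have := elt_mod hT hp.1
      unfold del
      rw [this]
  have h4 : (∑ p ∈ Finset.range (3 * T.length), (gam T p : ℤ)) =
      ∑ p ∈ Finset.range (3 * T.length), ((p % 3 : ℕ) : ℤ) := by
    rw [Finset.sum_congr rfl (fun p _ => h1 p), Finset.sum_add_distrib, Finset.sum_sub_distrib,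
      sum_del, h2]
    ring
  exact_mod_cast h4

end Pool.Agent.Q231.Seg
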