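import Pool.Agent.Q231.Seg.Comb

/-!
# Exact covers and pairs of permutations: the equivalence
-/

set_option autoImplicit false
set_option linter.unusedSimpArgs false

namespace Pool.Agent.Q231.Seg

open Pool.Agent.NPC Pool.Agent.NPC.H632

variable {T : List (ℕ × ℕ × ℕ)} {q : ℕ}

/-- the pairs of permutations produced by the colourings -/
def Pairs (T : List (ℕ × ℕ × ℕ)) : Prop :=
  ∃ A B : Equiv.Perm (Fin (3 * T.length)), (∀ p, (A p : ℕ) / 3 = (p : ℕ) / 3) ∧
    (∀ p, elt T (B p) = elt T p) ∧ ∀ p, (A p : ℕ) % 3 = gam T (B p)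

theorem flatMap_block {T : List (ℕ × ℕ × ℕ)} {J : List ℕ} (hJ : ∀ j ∈ J, j < T.length) :
    (J.map (fun j => T.getD j (0, 0, 0))).flatMap el =
      (J.flatMap (fun j => [3 * j, 3 * j + 1, 3 * j + 2])).map (elt T) := by
  induction J with
  | nil => rfl
  | cons j J ih =>
    rw [List.map_cons, List.flatMap_cons, List.flatMap_cons, List.map_append,
      ih (fun i hi => hJ i (List.mem_cons_of_mem _ hi))]
    congr 1
    have hj := hJ j List.mem_cons_self
    have h1 : T[j]? = some T[j] := List.getElem?_eq_getElem hj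
    rw [List.getD_eq_getElem?_getD, h1]
    have e0 := elt_eq (T := T) (j := j) (r := 0) (by norm_num) h1 (e := T[j].1) rfl
    have e1 := elt_eq (T := T) (j := j) (r := 1) (by norm_num) h1 (e := T[j].2.1) rfl
    have e2 := elt_eq (T := T) (j := j) (r := 2) (by norm_num) h1 (e := T[j].2.2) rfl
    rw [Nat.add_zero] at e0
    simp only [List.map_cons, List.map_nil, e0, e1, e2]
    rfl

open Classical in
theorem cover_of_pairs (hT : RolePr (T, q)) (h : Pairs T) : X3C (T, q) := by
  obtain ⟨A, B, hA, hB, hAB⟩ := h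
  -- the value of `A p` modulo 3
  have key : ∀ p : Fin (3 * T.length),
      (index (occL T) (elt T (B p)) = B p ∧ (A p : ℕ) % 3 = (p : ℕ) % 3) ∨
      (index (occL T) (elt T (B p)) ≠ B p ∧ (A p : ℕ) % 3 = ((p : ℕ) % 3 + 1) % 3) := by
    intro p
    have h1 := elt_mod hT (B p).2
    have h2 := elt_mod hT p.2
    have h3 := hB p
    have h4 : ((B p : ℕ)) % 3 = (p : ℕ) % 3 := by rw [← h1, ← h2, h3]
    have h5 := hAB p
    unfold gam at h5
    by_cases h6 : index (occL T) (elt T (B p)) = B p
    · rw [if_pos h6] at h5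
      exact Or.inl ⟨h6, by omega⟩
    · rw [if_neg h6] at h5
      exact Or.inr ⟨h6, by omega⟩
  -- the three members of a block behave in the same way
  have hinj : ∀ p p' : Fin (3 * T.length), (A p : ℕ) % 3 = (A p' : ℕ) % 3 →
      (p : ℕ) / 3 = (p' : ℕ) / 3 → p = p' := by
    intro p p' h1 h2
    apply A.injective
    apply Fin.ext
    have h3 := hA p
    have h4 := hA p'
    omega
  have blk : ∀ p p' : Fin (3 * T.length), (p : ℕ) / 3 = (p' : ℕ) / 3 →
      (A p : ℕ) % 3 = (p : ℕ) % 3 → (A p' : ℕ) % 3 = (p' : ℕ) % 3 := by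
    intro p p' hpp hp
    by_contra hne
    have hp'1 : (A p' : ℕ) % 3 = ((p' : ℕ) % 3 + 1) % 3 := by
      rcases key p' with h | h
      · exact absurd h.2 hne
      · exact h.2
    have hpp' : (p : ℕ) % 3 ≠ (p' : ℕ) % 3 := by
      intro h
      have : p = p' := Fin.ext (by omega)
      subst this
      exact hne hp
    -- the third member
    obtain ⟨r, hr⟩ : ∃ r : Fin (3 * T.length),
        (r : ℕ) = 3 * ((p : ℕ) / 3) + (3 - (p : ℕ) % 3 - (p' : ℕ) % 3) := by
      have := p.2
      exact ⟨⟨3 * ((p : ℕ) / 3) + (3 - (p : ℕ) % 3 - (p' : ℕ) % 3), by omega⟩, rfl⟩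
    have n1 : p ≠ p' := fun h => hpp' (by rw [h])
    have n2 : p ≠ r := by
      intro h
      have := congrArg Fin.val h
      omega
    have n3 : p' ≠ r := by
      intro h
      have := congrArg Fin.val h
      omega
    have j1 : (A p : ℕ) % 3 ≠ (A p' : ℕ) % 3 := fun h => n1 (hinj _ _ h hpp)
    have j2 : (A p : ℕ) % 3 ≠ (A r : ℕ) % 3 := fun h => n2 (hinj _ _ h (by omega))
    have j3 : (A p' : ℕ) % 3 ≠ (A r : ℕ) % 3 := fun h => n3 (hinj _ _ h (by omega))
    have hk2 : (A r : ℕ) % 3 = (r : ℕ) % 3 ∨ (A r : ℕ) % 3 = ((r : ℕ) % 3 + 1) % 3 := by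
      rcases key r with h | h
      · exact Or.inl h.2
      · exact Or.inr h.2
    omega
  -- the chosen triples
  let sel : ℕ → Prop := fun j => ∃ p : Fin (3 * T.length), (p : ℕ) / 3 = j ∧
    (A p : ℕ) % 3 = (p : ℕ) % 3
  let J : List ℕ := (List.range T.length).filter (fun j => decide (sel j))
  have hJ : ∀ j ∈ J, j < T.length := fun j hj => List.mem_range.1 (List.mem_filter.1 hj).1
  let P : List ℕ := J.flatMap (fun j => [3 * j, 3 * j + 1, 3 * j + 2])
  have memP : ∀ p, p ∈ P ↔ p < 3 * T.length ∧ sel (p / 3) := by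
    intro p
    simp only [P, J, List.mem_flatMap, List.mem_filter, List.mem_range, decide_eq_true_eq,
      List.mem_cons, List.not_mem_nil, or_false]
    constructor
    · rintro ⟨j, ⟨h1, h2⟩, h3⟩
      have : p / 3 = j := by omega
      rw [this]
      exact ⟨by omega, h2⟩
    · rintro ⟨h1, h2⟩
      exact ⟨p / 3, ⟨by omega, h2⟩, by omega⟩
  have Pnd : P.Nodup := by
    rw [List.nodup_flatMap]
    refine ⟨fun j _ => by simp, ?_⟩
    refine ((List.nodup_range).filter _).imp ?_
    intro j j' hne
    simp only [Function.onFun, List.Disjoint, List.mem_cons, List.not_mem_nil, or_false]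
    intro a h1 h2
    omega
  have first_of : ∀ (p : Fin (3 * T.length)), sel ((p : ℕ) / 3) →
      index (occL T) (elt T (B p)) = B p := by
    rintro p ⟨p', h1, h2⟩
    have h3 := blk p' p h1 h2
    rcases key p with h | h
    · exact h.1
    · exfalso
      have := h.2
      omega
  have hnd : (P.map (elt T)).Nodup := by
    refine (List.nodup_map_iff_inj_on Pnd).2 ?_
    intro p hp p' hp' hpp
    obtain ⟨h1, h2⟩ := (memP p).1 hp
    obtain ⟨h1', h2'⟩ := (memP p').1 hp'
    have h3 := first_of ⟨p, h1⟩ h2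
    have h4 := first_of ⟨p', h1'⟩ h2'
    rw [hB] at h3 h4
    have h5 : B ⟨p, h1⟩ = B ⟨p', h1'⟩ := by
      apply Fin.ext
      rw [← h3, ← h4]
      show index (occL T) (elt T p) = index (occL T) (elt T p')
      rw [hpp]
    have h6 := B.injective h5
    exact congrArg Fin.val h6
  refine ⟨J.map (fun j => T.getD j (0, 0, 0)), ?_, ?_⟩
  · intro t ht
    obtain ⟨j, hj, rfl⟩ := List.mem_map.1 ht
    have := hJ j hj
    show T.getD j (0, 0, 0) ∈ T
    rw [List.getD_eq_getElem?_getD, List.getElem?_eq_getElem this]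
    exact List.getElem_mem this
  · rw [flatMap_block hJ]
    show (P.map (elt T)).Perm (List.range (3 * q))
    rw [List.perm_ext_iff_of_nodup hnd List.nodup_range]
    intro e
    rw [List.mem_range, List.mem_map]
    constructor
    · rintro ⟨p, hp, rfl⟩
      exact elt_lt hT ((memP p).1 hp).1
    · intro he
      have hi := index_lt' hT he
      let p := B.symm ⟨index (occL T) e, hi⟩
      have h1 : B p = ⟨index (occL T) e, hi⟩ := B.apply_symm_apply _
      have h2 : elt T p = e := by
        rw [← hB p, h1]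
        exact elt_index hT he
      refine ⟨p, (memP p).2 ⟨p.2, p, rfl, ?_⟩, h2⟩
      rcases key p with h | h
      · exact h.2
      · exfalso
        apply h.1
        rw [hB p, h2, h1]

open Classical in
theorem pairs_of_cover (hT : RolePr (T, q)) (h : X3C (T, q)) : Pairs T := by
  obtain ⟨C, hC, hp⟩ := h
  have huniq : ∀ {t t' : ℕ × ℕ × ℕ}, t ∈ C → t' ∈ C → ∀ {e : ℕ}, e ∈ el t → e ∈ el t' →
      t = t' := by
    intro t t' ht ht' e he he'
    exact cover_unique List.nodup_range hp ht ht' he he'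
  -- the chosen indices
  let sel : ℕ → Prop := fun j => ∃ t ∈ C, T[j]? = some t ∧ index T t = j
  have hex : ∀ e, e < 3 * q → ∃ p, p < 3 * T.length ∧ elt T p = e ∧ sel (p / 3) := by
    intro e he
    obtain ⟨t, ht, het⟩ := List.mem_flatMap.1 (hp.mem_iff.2 (List.mem_range.2 he))
    have h1 : index T t < T.length := index_lt (hC t ht)
    have h2 : T[index T t]? = some t := getElem?_index (hC t ht)
    obtain ⟨a1, a2, a3, _⟩ := hT.1 t (hC t ht)
    have h3 : (el t)[e % 3]? = some e := by
      simp only [el, List.mem_cons, List.not_mem_nil, or_false] at het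
      rcases het with rfl | rfl | rfl
      · rw [a1]; rfl
      · rw [a2]; rfl
      · rw [a3]; rfl
    have h4 : e % 3 < 3 := Nat.mod_lt _ (by norm_num)
    refine ⟨3 * index T t + e % 3, by omega, elt_eq h4 h2 h3, ?_⟩
    have h5 : (3 * index T t + e % 3) / 3 = index T t := by omega
    rw [h5]
    exact ⟨t, ht, h2, rfl⟩
  have huni : ∀ p p', p < 3 * T.length → p' < 3 * T.length → elt T p = elt T p' → sel (p / 3) →
      sel (p' / 3) → p = p' := by
    rintro p p' h1 h1' hpp ⟨t, ht, h2, h3⟩ ⟨t', ht', h2', h3'⟩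
    obtain ⟨s, hs1, hs2, _⟩ := elt_mem h1
    obtain ⟨s', hs1', hs2', _⟩ := elt_mem h1'
    rw [h2] at hs1
    rw [h2'] at hs1'
    obtain rfl := Option.some.inj hs1
    obtain rfl := Option.some.inj hs1'
    have h4 := List.mem_of_getElem? hs2
    have h5 := List.mem_of_getElem? hs2'
    rw [hpp] at h4
    have h6 := huniq ht ht' h4 h5
    subst h6
    have h7 := elt_mod hT h1
    have h8 := elt_mod hT h1'
    omega
  choose! st hst using hex
  -- the second permutation
  let b : Fin (3 * T.length) → Fin (3 * T.length) := fun p =>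
    if sel ((p : ℕ) / 3) then ⟨index (occL T) (elt T p), index_lt' hT (elt_lt hT p.2)⟩
    else if index (occL T) (elt T p) = p then ⟨st (elt T p), (hst _ (elt_lt hT p.2)).1⟩ else p
  have hbe : ∀ p, elt T (b p) = elt T p := by
    intro p
    simp only [b]
    split_ifs with h1 h2
    · exact elt_index hT (elt_lt hT p.2)
    · exact (hst _ (elt_lt hT p.2)).2.1
    · rfl
  have hb1 : ∀ p : Fin (3 * T.length), sel ((p : ℕ) / 3) →
      b p = ⟨index (occL T) (elt T p), index_lt' hT (elt_lt hT p.2)⟩ := by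
    intro p h
    simp only [b]
    rw [if_pos h]
  have hb2 : ∀ p : Fin (3 * T.length), ¬ sel ((p : ℕ) / 3) → index (occL T) (elt T p) = p →
      b p = ⟨st (elt T p), (hst _ (elt_lt hT p.2)).1⟩ := by
    intro p h h'
    simp only [b]
    rw [if_neg h, if_pos h']
  have hb3 : ∀ p : Fin (3 * T.length), ¬ sel ((p : ℕ) / 3) → index (occL T) (elt T p) ≠ p →
      b p = p := by
    intro p h h'
    simp only [b]
    rw [if_neg h, if_neg h']
  have hinv : Function.Involutive b := by
    intro p
    have hlt := elt_lt hT p.2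
    by_cases h1 : sel ((p : ℕ) / 3)
    · -- `b p` is the first occurrence
      have hst' : st (elt T p) = p := by
        obtain ⟨a1, a2, a3⟩ := hst _ hlt
        exact huni _ _ a1 p.2 a2 a3 h1
      have e1 : elt T (b p) = elt T p := hbe p
      have e2 : (b p : ℕ) = index (occL T) (elt T p) := by rw [hb1 p h1]
      by_cases h2 : sel ((b p : ℕ) / 3)
      · have : b p = p := Fin.ext (huni _ _ (b p).2 p.2 e1 h2 h1)
        rw [this, this]
      · rw [hb2 (b p) h2 (by rw [e1, e2])]
        apply Fin.ext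
        show st (elt T (b p)) = p
        rw [e1, hst']
    · by_cases h2 : index (occL T) (elt T p) = p
      · have e1 : elt T (b p) = elt T p := hbe p
        have e2 : sel ((b p : ℕ) / 3) := by
          rw [hb2 p h1 h2]
          exact (hst _ hlt).2.2
        rw [hb1 _ e2]
        apply Fin.ext
        show index (occL T) (elt T (b p)) = p
        rw [e1, h2]
      · rw [hb3 p h1 h2, hb3 p h1 h2]
  -- the first permutation
  let a : Fin (3 * T.length) → Fin (3 * T.length) := fun p =>
    if sel ((p : ℕ) / 3) then p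
    else ⟨3 * ((p : ℕ) / 3) + ((p : ℕ) % 3 + 1) % 3, by have := p.2; omega⟩
  have ha1 : ∀ p : Fin (3 * T.length), sel ((p : ℕ) / 3) → a p = p := by
    intro p h
    simp only [a]
    rw [if_pos h]
  have ha2 : ∀ p : Fin (3 * T.length), ¬ sel ((p : ℕ) / 3) →
      (a p : ℕ) = 3 * ((p : ℕ) / 3) + ((p : ℕ) % 3 + 1) % 3 := by
    intro p h
    simp only [a]
    rw [if_neg h]
  have hadiv : ∀ p, (a p : ℕ) / 3 = (p : ℕ) / 3 := by
    intro p
    by_cases h : sel ((p : ℕ) / 3)
    · rw [ha1 p h]
    · rw [ha2 p h]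
      omega
  have hainj : Function.Injective a := by
    intro p p' hpp
    have h1 := hadiv p
    have h2 := hadiv p'
    rw [hpp] at h1
    have h3 : (p : ℕ) / 3 = (p' : ℕ) / 3 := h1.symm.trans h2
    by_cases h : sel ((p : ℕ) / 3)
    · rw [ha1 p h] at hpp
      rw [h3] at h
      rw [ha1 p' h] at hpp
      exact hpp
    · have h4 := ha2 p h
      rw [h3] at h
      have h5 := ha2 p' h
      rw [hpp] at h4
      apply Fin.ext
      omega
  refine ⟨Equiv.ofBijective a (Finite.injective_iff_bijective.1 hainj), hinv.toPerm b, ?_, ?_, ?_⟩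
  · exact hadiv
  · exact hbe
  · intro p
    show (a p : ℕ) % 3 = gam T (b p)
    have hlt := elt_lt hT p.2
    have e1 : elt T (b p) = elt T p := hbe p
    have e2 := elt_mod hT (b p).2
    have e3 := elt_mod hT p.2
    have e4 : (b p : ℕ) % 3 = (p : ℕ) % 3 := by rw [← e2, ← e3, e1]
    unfold gam
    rw [e1]
    by_cases h1 : sel ((p : ℕ) / 3)
    · rw [ha1 p h1, hb1 p h1]
      rw [hb1 p h1] at e4
      simp only [if_true]
      exact e4.symm
    · rw [ha2 p h1]
      have h5 : index (occL T) (elt T p) ≠ (b p : ℕ) := by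
        by_cases h2 : index (occL T) (elt T p) = p
        · rw [h2, hb2 p h1 h2]
          intro h
          apply h1
          have h' : (p : ℕ) = st (elt T p) := h
          rw [h']
          exact (hst _ hlt).2.2
        · rw [hb3 p h1 h2]
          exact h2
      rw [if_neg h5]
      omega

theorem pairs_iff (hT : RolePr (T, q)) : Pairs T ↔ X3C (T, q) :=
  ⟨cover_of_pairs hT, pairs_of_cover hT⟩

end Pool.Agent.Q231.Seg
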