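import Mathlib

/-!
# Chord sets, `g`-segment graphs and their colourings
-/

set_option autoImplicit false

namespace Pool.Agent.Q231.Seg

/-- Two chords, given by their left and right endpoints, intersect. -/
def Cross (a b : ℕ × ℕ) : Prop :=
  (a.1 < b.1 ∧ b.1 < a.2 ∧ a.2 < b.2) ∨ (b.1 < a.1 ∧ a.1 < b.2 ∧ b.2 < a.2)

/-- `C` lists the chords of a chord set: the left endpoint of a chord is smaller than its right
endpoint, and all the endpoints are distinct. -/
def IsChordSet (C : List (ℕ × ℕ)) : Prop :=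
  (∀ c ∈ C, c.1 < c.2) ∧ (C.flatMap fun c => [c.1, c.2]).Nodup

/-- `C` is a `g`-segment graph: there are reals `e_1, ..., e_(g-1)` such that every chord
has some `e_i` strictly between its endpoints. -/
def IsSegment (g : ℕ) (C : List (ℕ × ℕ)) : Prop :=
  ∃ e : Fin (g - 1) → ℝ, ∀ c ∈ C, ∃ i, (c.1 : ℝ) < e i ∧ e i < (c.2 : ℝ)

/-- `χ(C) ≤ k`: there is a colouring of the chords with the `k` colours `0, ..., k - 1` in which
intersecting chords have different colours. -/
def Colourable (C : List (ℕ × ℕ)) (k : ℕ) : Prop :=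
  ∃ f : ℕ × ℕ → ℕ, (∀ c ∈ C, f c < k) ∧ ∀ a ∈ C, ∀ b ∈ C, Cross a b → f a ≠ f b

/-- The colouring problem for `g`-segment graphs: an instance `(C, k)` is a yes-instance if `C` is
a chord set, it is a `g`-segment graph and `χ(C) ≤ k`. -/
def SegColouring (g : ℕ) (I : List (ℕ × ℕ) × ℕ) : Prop :=
  IsChordSet I.1 ∧ IsSegment g I.1 ∧ Colourable I.1 I.2

end Pool.Agent.Q231.Seg
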