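import Pool.Agent.Q231.Seg.Red
import Pool.Agent.Q231.GrTest

/-!
# Colouring `g`-segment graphs: polynomial time and membership in NP
-/

set_option autoImplicit false

namespace Pool.Agent.Q231.Seg

open Pool.Agent.NPC Pool.Agent.NPC.H632 Pool.Agent.Q231.Gr

attribute [local fun_prop] NPC.Poly.index

theorem pos_poly {α : Type} [TEnc α] {N s u c i : α → ℕ} (hN : Poly N) (hs : Poly s) (hu : Poly u)
    (hc : Poly c) (hi : Poly i) : Poly (fun a => pos (N a) (s a) (u a) (c a) (i a)) := by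
  unfold pos
  fun_prop

attribute [local fun_prop] pos_poly

theorem fam_poly {α : Type} [TEnc α] {N e j r s : α → ℕ} {L : α → List ℕ} (hN : Poly N)
    (hL : Poly L) (he : Poly e) (hj : Poly j) (hr : Poly r) (hs : Poly s) :
    Poly (fun a => fam (N a) (L a) (e a) (j a) (r a) (s a)) := by
  unfold fam
  fun_prop

attribute [local fun_prop] fam_poly

theorem chordsOf_poly : Poly chordsOf := by
  unfold chordsOf bnd el
  fun_prop

/-- the reduction -/
noncomputable def redS (I : List (ℕ × ℕ × ℕ) × ℕ) : List (ℕ × ℕ) × ℕ :=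
  (chordsOf I, 3 * I.1.length)

theorem redS_poly : Poly redS := by
  have := chordsOf_poly
  unfold redS
  fun_prop

/-- **Hardness**: all instances produced are chord sets and `3`-segment graphs. -/
theorem hardPr : HardPr (fun I : List (ℕ × ℕ) × ℕ => IsChordSet I.1 ∧ IsSegment 3 I.1)
    (fun I => Colourable I.1 I.2) := by
  refine hardPr_role.trans redS_poly ?_ ?_
  · rintro ⟨T, q⟩ hT
    exact ⟨isChordSet hT, isSegment3 hT⟩
  · rintro ⟨T, q⟩ hT
    exact (colourable_iff hT).symm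

theorem hardI_seg {g : ℕ} (hg : 3 ≤ g) : HardI (SegColouring g) := by
  intro L hL
  obtain ⟨f, hf, hpr, hfL⟩ := hardPr L hL
  refine ⟨f, hf, fun x => (hfL x).trans ?_⟩
  exact ⟨fun h => ⟨(hpr x).1, isSegment_mono hg (hpr x).2, h⟩, fun h => h.2.2⟩

/-! ### Membership in NP -/

def crossB (a b : ℕ × ℕ) : Bool :=
  (decide (a.1 < b.1) && decide (b.1 < a.2) && decide (a.2 < b.2)) ||
    (decide (b.1 < a.1) && decide (a.1 < b.2) && decide (b.2 < a.2))

theorem crossB_iff (a b : ℕ × ℕ) : crossB a b = true ↔ Cross a b := by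
  unfold crossB Cross
  simp only [Bool.or_eq_true, Bool.and_eq_true, decide_eq_true_eq, and_assoc]

theorem crossB_poly {α : Type} [TEnc α] {a b : α → ℕ × ℕ} (ha : Poly a) (hb : Poly b) :
    Poly (fun x => crossB (a x) (b x)) := by
  unfold crossB
  fun_prop

def segTest (g : ℕ) (x : (List (ℕ × ℕ) × ℕ) × (List ℕ × List ((ℕ × ℕ) × ℕ))) : Bool :=
  (x.1.1.all fun c => decide (c.1 < c.2)) &&
    decide ((x.1.1.flatMap fun c => [c.1, c.2]).Nodup) &&
    decide (x.2.1.length ≤ g - 1) &&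
    (x.1.1.all fun c => x.2.1.any fun m => decide (c.1 ≤ m) && decide (m < c.2)) &&
    (x.1.1.all fun c => x.2.2.any fun w => decide (w.1 = c) && decide (w.2 < x.1.2)) &&
    (x.2.2.all fun w => x.2.2.all fun w' => !(crossB w.1 w'.1) || !decide (w.2 = w'.2))

attribute [local fun_prop] crossB_poly nodup_poly

theorem segTest_poly (g : ℕ) : Poly (segTest g) := by
  unfold segTest
  fun_prop

theorem segTest_iff (g : ℕ) (x : (List (ℕ × ℕ) × ℕ) × (List ℕ × List ((ℕ × ℕ) × ℕ))) :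
    segTest g x = true ↔ IsChordSet x.1.1 ∧ (x.2.1.length ≤ g - 1 ∧
      ∀ c ∈ x.1.1, ∃ m ∈ x.2.1, c.1 ≤ m ∧ m < c.2) ∧
      (∀ c ∈ x.1.1, ∃ w ∈ x.2.2, w.1 = c ∧ w.2 < x.1.2) ∧
      ∀ w ∈ x.2.2, ∀ w' ∈ x.2.2, Cross w.1 w'.1 → w.2 ≠ w'.2 := by
  unfold segTest IsChordSet
  simp only [Bool.and_eq_true, List.all_eq_true, List.any_eq_true, decide_eq_true_eq,
    Bool.or_eq_true, Bool.not_eq_true', decide_eq_false_iff_not, and_assoc, imp_iff_not_or,
    ← crossB_iff, Bool.not_eq_true, ne_eq]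

theorem len_le_sz {β : Type} [TEnc β] (l : List β) : l.length ≤ sz l := by
  induction l with
  | nil => simp
  | cons a l ih => simp; omega

open Classical in
theorem inNP_seg (g : ℕ) : InNPP (SegColouring g) := by
  refine inNPP_of (R := segTest g) (segTest_poly g)
    (Polynomial.C (g - 1) * (2 * Polynomial.X + 3) + Polynomial.X * (3 * Polynomial.X + 4) + 4) ?_
  rintro ⟨C, k⟩
  set s := sz ((C, k) : List (ℕ × ℕ) × ℕ) with hs
  have hev : (Polynomial.C (g - 1) * (2 * Polynomial.X + 3) +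
      Polynomial.X * (3 * Polynomial.X + 4) + 4 : Polynomial ℕ).eval s =
      (g - 1) * (2 * s + 3) + s * (3 * s + 4) + 4 := by
    simp
  rw [hev]
  have hsC : sz C ≤ s := by rw [hs, sz_pair]; omega
  have hsk : sz k ≤ s := by rw [hs, sz_pair]; omega
  constructor
  · rintro ⟨h1, ⟨e, he⟩, f, hf, hc⟩
    simp only at h1 he hf hc
    let m : Fin (g - 1) → ℕ := fun i =>
      if ∃ c ∈ C, (c.1 : ℝ) < e i ∧ e i < (c.2 : ℝ) then ⌈e i⌉₊ - 1 else 0
    have hm : ∀ i, ∀ c ∈ C, (c.1 : ℝ) < e i → e i < (c.2 : ℝ) → c.1 ≤ m i ∧ m i < c.2 := by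
      intro i c hcC h3 h4
      have h5 : m i = ⌈e i⌉₊ - 1 := if_pos ⟨c, hcC, h3, h4⟩
      have h6 : c.1 < ⌈e i⌉₊ := Nat.lt_ceil.2 h3
      have h7 : ⌈e i⌉₊ ≤ c.2 := Nat.ceil_le.2 h4.le
      rw [h5]
      omega
    have hmsz : ∀ i, sz (m i) ≤ 2 * s + 1 := by
      intro i
      by_cases h : ∃ c ∈ C, (c.1 : ℝ) < e i ∧ e i < (c.2 : ℝ)
      · obtain ⟨c, hcC, h3, h4⟩ := h
        have h5 := hm i c hcC h3 h4
        have h6 := sz_nat_mono_le h5.2.le
        have h7 := sz_le_of_mem hcC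
        have h8 : sz c = sz c.1 + sz c.2 + 1 := sz_pair c.1 c.2
        omega
      · have h5 : m i = 0 := if_neg h
        rw [h5]
        have := sz_nat_le 0
        simp at this
        omega
    refine ⟨(List.ofFn m, C.map (fun c => (c, f c))), ?_, ?_⟩
    · rw [sz_pair]
      have h3 := sz_le_length_mul (List.ofFn m) (2 * s + 1) (by
        intro a ha
        obtain ⟨i, rfl⟩ := (List.mem_ofFn' m a).1 ha
        exact hmsz i)
      have h4 := sz_le_length_mul (C.map (fun c => (c, f c))) (3 * s + 1) (by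
        intro a ha
        obtain ⟨c, hcC, rfl⟩ := List.mem_map.1 ha
        rw [sz_pair]
        have h5 := sz_nat_mono_le (hf c hcC).le
        have h6 := sz_le_of_mem hcC
        omega)
      rw [List.length_ofFn] at h3
      rw [List.length_map] at h4
      have h5 := len_le_sz C
      have h6 : C.length ≤ s := h5.trans hsC
      have h7 : C.length * (3 * s + 1 + 1) ≤ s * (3 * s + 1 + 1) := Nat.mul_le_mul_right _ h6
      nlinarith
    · rw [segTest_iff]
      refine ⟨h1, ⟨?_, ?_⟩, ?_, ?_⟩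
      · simp
      · intro c hcC
        obtain ⟨i, h3, h4⟩ := he c hcC
        exact ⟨m i, (List.mem_ofFn' m _).2 ⟨i, rfl⟩, hm i c hcC h3 h4⟩
      · intro c hcC
        exact ⟨(c, f c), List.mem_map_of_mem hcC, rfl, hf c hcC⟩
      · intro w hw w' hw' hcr
        obtain ⟨c, hcC, rfl⟩ := List.mem_map.1 hw
        obtain ⟨c', hcC', rfl⟩ := List.mem_map.1 hw'
        exact hc c hcC c' hcC' hcr
  · rintro ⟨⟨es, W⟩, _, hw⟩
    rw [segTest_iff] at hw
    obtain ⟨h1, ⟨h2, h3⟩, h4, h5⟩ := hw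
    simp only at h1 h2 h3 h4 h5
    refine ⟨h1, ⟨fun i => ((es.getD i 0 : ℕ) : ℝ) + 1 / 2, ?_⟩, ?_⟩
    · intro c hcC
      obtain ⟨m, hm, h6, h7⟩ := h3 c hcC
      obtain ⟨i, hi, him⟩ := List.getElem_of_mem hm
      refine ⟨⟨i, by omega⟩, ?_⟩
      have h8 : es.getD i 0 = m := by
        rw [List.getD_eq_getElem?_getD, List.getElem?_eq_getElem hi, him]
        rfl
      simp only [h8]
      have h9 : (c.1 : ℝ) ≤ (m : ℝ) := by exact_mod_cast h6
      have h10 : (m : ℝ) + 1 ≤ (c.2 : ℝ) := by exact_mod_cast h7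
      constructor <;> linarith
    · choose! w hwW hw1 hw2 using h4
      refine ⟨fun c => (w c).2, fun c hcC => hw2 c hcC, ?_⟩
      intro a ha b hb hab
      apply h5 _ (hwW a ha) _ (hwW b hb)
      rw [hw1 a ha, hw1 b hb]
      exact hab

end Pool.Agent.Q231.Seg
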