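import Pool.Agent.Q231.Seg.Defs
import Pool.Agent.Q231.Seg.Comb2

/-!
# The chord set of an instance of three-dimensional matching
-/

set_option autoImplicit false
set_option linter.unusedSimpArgs false

namespace Pool.Agent.Q231.Seg

open Pool.Agent.NPC Pool.Agent.NPC.H632

/-! ### Positions -/

/-- the position of an endpoint -/
def pos (N s u c i : ℕ) : ℕ := ((s * (N + 5) + u) * 4 + c) * (N * N + 3 * N + 4) + i

/-- the position with a given key -/
def enc (N : ℕ) (k : Key) : ℕ := pos N k.1 k.2.1 k.2.2.1 k.2.2.2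

def VK (N : ℕ) (k : Key) : Prop := k.2.1 < N + 5 ∧ k.2.2.1 < 4 ∧ k.2.2.2 < N * N + 3 * N + 4

theorem lex_eq {a x a' x' B : ℕ} (hx : x < B) (hx' : x' < B) :
    a * B + x = a' * B + x' ↔ a = a' ∧ x = x' := by
  constructor
  · intro h
    have h1 := lex_step (a := a) (a' := a') hx hx'
    have h2 := lex_step (a := a') (a' := a) hx' hx
    omega
  · rintro ⟨rfl, rfl⟩
    rfl

theorem enc_lt {N : ℕ} {a b : Key} (ha : VK N a) (hb : VK N b) : enc N a < enc N b ↔ lt4 a b := by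
  unfold enc pos lt4
  rw [lex_step ha.2.2 hb.2.2, lex_step ha.2.1 hb.2.1, lex_step ha.1 hb.1, lex_eq ha.2.1 hb.2.1,
    lex_eq ha.1 hb.1]
  omega

theorem enc_inj {N : ℕ} {a b : Key} (ha : VK N a) (hb : VK N b) (h : enc N a = enc N b) :
    a = b := by
  unfold enc pos at h
  rw [lex_eq ha.2.2 hb.2.2, lex_eq ha.2.1 hb.2.1, lex_eq ha.1 hb.1] at h
  obtain ⟨⟨⟨h1, h2⟩, h3⟩, h4⟩ := h
  exact Prod.ext h1 (Prod.ext h2 (Prod.ext h3 h4))

section
variable {N : ℕ} {E g : ℕ → ℕ}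

/-- the chord with index `p` of the family `f` -/
def ch (N : ℕ) (E g : ℕ → ℕ) (f : Fin 6) (p : ℕ) : ℕ × ℕ :=
  (enc N (chk N E g f p).1, enc N (chk N E g f p).2)

theorem chk_valid {f : Fin 6} {p : ℕ} (hp : p < N) (hE : E p < N) (hg : g p < 3) :
    VK N (chk N E g f p).1 ∧ VK N (chk N E g f p).2 := by
  have h1 : g p * N + p < 3 * N + 4 := by nlinarith
  have h2 : E p * N + p < N * N + 3 * N + 4 := by nlinarith
  have h3 : 0 ≤ N * N := Nat.zero_le _
  fin_cases f <;> simp only [Fin.zero_eta, Fin.mk_one, Fin.reduceFinMk, chk_0, chk_1, chk_2, chk_3,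
    chk_4, chk_5, VK] <;> generalize N * N = X at * <;> omega

theorem chk_lt {f : Fin 6} {p : ℕ} : lt4 (chk N E g f p).1 (chk N E g f p).2 := by
  fin_cases f <;> simp only [Fin.zero_eta, Fin.mk_one, Fin.reduceFinMk, chk_0, chk_1, chk_2, chk_3,
    chk_4, chk_5, lt4] <;> omega

/-- the two keys of a chord -/
def kend (N : ℕ) (E g : ℕ → ℕ) (f : Fin 6) (b : Bool) (p : ℕ) : Key :=
  bif b then (chk N E g f p).2 else (chk N E g f p).1

theorem kend_inj {f f' : Fin 6} {b b' : Bool} {p p' : ℕ} (hp : p < N) (hp' : p' < N)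
    (hE : E p % 3 = p % 3) (hE' : E p' % 3 = p' % 3)
    (h : kend N E g f b p = kend N E g f' b' p') : f = f' ∧ b = b' ∧ p = p' := by
  have e1 := lex_eq (a := g p) (a' := g p') hp hp'
  have e2 := lex_eq (a := E p) (a' := E p') hp hp'
  by_cases hff : f = f'
  · subst hff
    fin_cases f <;> cases b <;> cases b' <;>
      simp only [kend, cond_true, cond_false, Fin.zero_eta, Fin.mk_one, Fin.reduceFinMk, chk_0, chk_1,
        chk_2, chk_3, chk_4, chk_5, Prod.mk.injEq, true_and, and_true, false_and, and_false] at h ⊢ <;>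
      omega
  · exfalso
    fin_cases f <;> fin_cases f' <;>
      first
      | exact hff rfl
      | (cases b <;> cases b' <;>
          simp only [kend, cond_true, cond_false, Fin.zero_eta, Fin.mk_one, Fin.reduceFinMk, chk_0,
            chk_1, chk_2, chk_3, chk_4, chk_5, Prod.mk.injEq, true_and, and_true, false_and,
            and_false] at h <;> omega)

end

/-! ### The chord set -/

/-- the bound for the labels -/
def bnd (I : List (ℕ × ℕ × ℕ) × ℕ) : ℕ := 3 * I.1.length + 3 * I.2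

/-- the six chords with index `p = 3 j + r` -/
noncomputable def fam (N : ℕ) (L : List ℕ) (e j r s : ℕ) : List (ℕ × ℕ) :=
  [(pos N 0 e 2 (3 * j + r), pos N 1 j 1 e),
   (pos N 0 e 1 ((bif decide (index L e = 3 * j + r) then r else s) * N + (3 * j + r)),
    pos N 2 ((bif decide (index L e = 3 * j + r) then r else s) + 1) 1 (3 * j + r)),
   (pos N 1 j 2 r, pos N 2 (r + 1) 0 j),
   (pos N 0 N 3 (3 * j + r), pos N 1 j 0 (3 * j + r)),
   (pos N 1 j 3 (3 * j + r), pos N 2 0 0 (3 * j + r)),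
   (pos N 0 e 0 (3 * j + r), pos N 2 4 0 (e * N + (3 * j + r)))]

/-- the chord set -/
noncomputable def chordsOf (I : List (ℕ × ℕ × ℕ) × ℕ) : List (ℕ × ℕ) :=
  I.1.zipIdx.flatMap (fun tj =>
    fam (bnd I) (I.1.flatMap el) tj.1.1 tj.2 0 1 ++ (fam (bnd I) (I.1.flatMap el) tj.1.2.1 tj.2 1 2 ++
      fam (bnd I) (I.1.flatMap el) tj.1.2.2 tj.2 2 0))

/-- the chord with index `p` of the family `f` of an instance -/
noncomputable def chI (I : List (ℕ × ℕ × ℕ) × ℕ) (f : Fin 6) (p : ℕ) : ℕ × ℕ :=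
  ch (bnd I) (elt I.1) (gam I.1) f p

noncomputable def blk (I : List (ℕ × ℕ × ℕ) × ℕ) (p : ℕ) : List (ℕ × ℕ) :=
  [chI I 0 p, chI I 1 p, chI I 2 p, chI I 3 p, chI I 4 p, chI I 5 p]

theorem fam_eq {T : List (ℕ × ℕ × ℕ)} {q j r s : ℕ} (hr : r < 3) (hs : s = (r + 1) % 3)
    {t : ℕ × ℕ × ℕ} (hj : T[j]? = some t) {e : ℕ} (he : (el t)[r]? = some e) :
    fam (bnd (T, q)) (T.flatMap el) e j r s = blk (T, q) (3 * j + r) := by
  have h1 : elt T (3 * j + r) = e := elt_eq hr hj he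
  have h2 : (3 * j + r) / 3 = j := by omega
  have h3 : (3 * j + r) % 3 = r := by omega
  have h4 : gam T (3 * j + r) = if index (T.flatMap el) e = 3 * j + r then r else s := by
    unfold gam occL
    rw [h1, h3, hs]
  simp only [fam, blk, chI, ch, enc, chk_0, chk_1, chk_2, chk_3, chk_4, chk_5, h1, h2, h3, h4,
    Bool.cond_decide]

theorem range_blocks (m : ℕ) :
    (List.range m).flatMap (fun j => [3 * j, 3 * j + 1, 3 * j + 2]) = List.range (3 * m) := by
  induction m with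
  | zero => rfl
  | succ m ih =>
    rw [List.range_succ, List.flatMap_append, ih, show 3 * (m + 1) = 3 * m + 1 + 1 + 1 by ring,
      List.range_succ, List.range_succ, List.range_succ]
    simp

theorem zipIdx_flatMap {α β : Type} (T : List α) (F : α × ℕ → List β) (G : ℕ → List β)
    (h : ∀ j t, T[j]? = some t → F (t, j) = G j) :
    T.zipIdx.flatMap F = (List.range T.length).flatMap G := by
  have h1 : T.zipIdx.map F = (List.range T.length).map G := by
    apply List.ext_getElem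
    · simp
    · intro i h1 h2
      have h3 : i < T.length := by simpa using h1
      rw [List.getElem_map, List.getElem_map, List.getElem_zipIdx, List.getElem_range,
        Nat.zero_add]
      exact h i _ (List.getElem?_eq_getElem h3)
  rw [List.flatMap_def, List.flatMap_def, h1]

theorem chordsOf_eq (T : List (ℕ × ℕ × ℕ)) (q : ℕ) :
    chordsOf (T, q) = (List.range (3 * T.length)).flatMap (blk (T, q)) := by
  unfold chordsOf
  rw [← range_blocks, List.flatMap_assoc]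
  apply zipIdx_flatMap
  intro j t hj
  simp only [List.flatMap_cons, List.flatMap_nil, List.append_nil]
  rw [fam_eq (r := 0) (by norm_num) rfl hj (by rfl), fam_eq (r := 1) (by norm_num) rfl hj (by rfl),
    fam_eq (r := 2) (by norm_num) rfl hj (by rfl)]
  rfl

theorem mem_blk {I : List (ℕ × ℕ × ℕ) × ℕ} {p : ℕ} {c : ℕ × ℕ} :
    c ∈ blk I p ↔ ∃ f : Fin 6, c = chI I f p := by
  unfold blk
  simp only [List.mem_cons, List.not_mem_nil, or_false]
  constructor
  · rintro (h | h | h | h | h | h)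
    · exact ⟨0, h⟩
    · exact ⟨1, h⟩
    · exact ⟨2, h⟩
    · exact ⟨3, h⟩
    · exact ⟨4, h⟩
    · exact ⟨5, h⟩
  · rintro ⟨f, h⟩
    fin_cases f
    · exact Or.inl h
    · exact Or.inr (Or.inl h)
    · exact Or.inr (Or.inr (Or.inl h))
    · exact Or.inr (Or.inr (Or.inr (Or.inl h)))
    · exact Or.inr (Or.inr (Or.inr (Or.inr (Or.inl h))))
    · exact Or.inr (Or.inr (Or.inr (Or.inr (Or.inr h))))

theorem mem_chordsOf {T : List (ℕ × ℕ × ℕ)} {q : ℕ} {c : ℕ × ℕ} :
    c ∈ chordsOf (T, q) ↔ ∃ p : Fin (3 * T.length), ∃ f : Fin 6, c = chI (T, q) f p := by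
  rw [chordsOf_eq, List.mem_flatMap]
  constructor
  · rintro ⟨p, hp, h⟩
    obtain ⟨f, hf⟩ := mem_blk.1 h
    exact ⟨⟨p, List.mem_range.1 hp⟩, f, hf⟩
  · rintro ⟨p, f, hf⟩
    exact ⟨p, List.mem_range.2 p.2, mem_blk.2 ⟨f, hf⟩⟩

section
variable {T : List (ℕ × ℕ × ℕ)} {q : ℕ}

theorem lt_bnd {p : ℕ} (hp : p < 3 * T.length) : p < bnd (T, q) := by
  unfold bnd
  show p < 3 * T.length + 3 * q
  omega

theorem elt_lt_bnd (hT : RolePr (T, q)) {p : ℕ} (hp : p < 3 * T.length) : elt T p < bnd (T, q) := by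
  have := elt_lt hT hp
  unfold bnd
  show elt T p < 3 * T.length + 3 * q
  omega

theorem valid_chI (hT : RolePr (T, q)) (f : Fin 6) {p : ℕ} (hp : p < 3 * T.length) :
    VK (bnd (T, q)) (chk (bnd (T, q)) (elt T) (gam T) f p).1 ∧
      VK (bnd (T, q)) (chk (bnd (T, q)) (elt T) (gam T) f p).2 :=
  chk_valid (lt_bnd hp) (elt_lt_bnd hT hp) (gam_lt p)

theorem cross_iff (hT : RolePr (T, q)) (f f' : Fin 6) {p p' : ℕ} (hp : p < 3 * T.length)
    (hp' : p' < 3 * T.length) : Cross (chI (T, q) f p) (chI (T, q) f' p') ↔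
      CrossK (chk (bnd (T, q)) (elt T) (gam T) f p) (chk (bnd (T, q)) (elt T) (gam T) f' p') := by
  obtain ⟨h1, h2⟩ := valid_chI hT f hp
  obtain ⟨h3, h4⟩ := valid_chI hT f' hp'
  unfold Cross CrossK chI ch
  simp only [enc_lt h1 h3, enc_lt h3 h2, enc_lt h2 h4, enc_lt h3 h1, enc_lt h1 h4, enc_lt h4 h2]

theorem end_inj (hT : RolePr (T, q)) {f f' : Fin 6} {b b' : Bool} {p p' : ℕ}
    (hp : p < 3 * T.length) (hp' : p' < 3 * T.length)
    (h : enc (bnd (T, q)) (kend (bnd (T, q)) (elt T) (gam T) f b p) =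
      enc (bnd (T, q)) (kend (bnd (T, q)) (elt T) (gam T) f' b' p')) :
    f = f' ∧ b = b' ∧ p = p' := by
  have hv : ∀ (f : Fin 6) (b : Bool) {p : ℕ}, p < 3 * T.length →
      VK (bnd (T, q)) (kend (bnd (T, q)) (elt T) (gam T) f b p) := by
    intro f b p hp
    obtain ⟨h1, h2⟩ := valid_chI hT f hp
    cases b
    · exact h1
    · exact h2
  exact kend_inj (lt_bnd hp) (lt_bnd hp') (elt_mod hT hp) (elt_mod hT hp')
    (enc_inj (hv f b hp) (hv f' b' hp') h)

theorem chI_inj (hT : RolePr (T, q)) {f f' : Fin 6} {p p' : Fin (3 * T.length)}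
    (h : chI (T, q) f p = chI (T, q) f' p') : f = f' ∧ p = p' := by
  have h1 := congrArg Prod.fst h
  obtain ⟨h2, _, h3⟩ := end_inj hT (b := false) (b' := false) p.2 p'.2 h1
  exact ⟨h2, Fin.ext h3⟩

theorem isChordSet (hT : RolePr (T, q)) : IsChordSet (chordsOf (T, q)) := by
  constructor
  · intro c hc
    obtain ⟨p, f, rfl⟩ := mem_chordsOf.1 hc
    obtain ⟨h1, h2⟩ := valid_chI hT f p.2
    exact (enc_lt h1 h2).2 chk_lt
  · rw [chordsOf_eq, List.flatMap_assoc, List.nodup_flatMap]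
    have hmem : ∀ (p x : ℕ), x ∈ (blk (T, q) p).flatMap (fun c => [c.1, c.2]) →
        ∃ (f : Fin 6) (b : Bool),
          x = enc (bnd (T, q)) (kend (bnd (T, q)) (elt T) (gam T) f b p) := by
      intro p x hx
      obtain ⟨c, hc, hx⟩ := List.mem_flatMap.1 hx
      obtain ⟨f, rfl⟩ := mem_blk.1 hc
      simp only [List.mem_cons, List.not_mem_nil, or_false] at hx
      rcases hx with hx | hx
      · exact ⟨f, false, hx⟩
      · exact ⟨f, true, hx⟩
    constructor
    · intro p hp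
      rw [List.mem_range] at hp
      have h1 : (blk (T, q) p).flatMap (fun c => [c.1, c.2]) =
          ([((0 : Fin 6), false), (0, true), (1, false), (1, true), (2, false), (2, true),
            (3, false), (3, true), (4, false), (4, true), (5, false), (5, true)] :
            List (Fin 6 × Bool)).map
            (fun fb => enc (bnd (T, q)) (kend (bnd (T, q)) (elt T) (gam T) fb.1 fb.2 p)) := rfl
      rw [h1]
      refine (List.nodup_map_iff_inj_on (by decide)).2 ?_
      rintro ⟨f, b⟩ _ ⟨f', b'⟩ _ h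
      obtain ⟨h2, h3, _⟩ := end_inj hT hp hp h
      exact Prod.ext h2 h3
    · refine List.Pairwise.imp_of_mem ?_ (List.nodup_range)
      intro p p' hp hp' hne x hx hx'
      rw [List.mem_range] at hp hp'
      obtain ⟨f, b, h1⟩ := hmem p x hx
      obtain ⟨f', b', h2⟩ := hmem p' x hx'
      exact hne (end_inj hT hp hp' (h1.symm.trans h2)).2.2

theorem isSegment3 (hT : RolePr (T, q)) : IsSegment 3 (chordsOf (T, q)) := by
  have hW : ∀ (f : Fin 6) (b : Bool) (p : ℕ) (s : ℕ), p < 3 * T.length →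
      (enc (bnd (T, q)) (kend (bnd (T, q)) (elt T) (gam T) f b p) < enc (bnd (T, q)) (s, 0, 0, 0) ↔
        lt4 (kend (bnd (T, q)) (elt T) (gam T) f b p) (s, 0, 0, 0)) := by
    intro f b p s hp
    obtain ⟨h1, h2⟩ := valid_chI hT f hp
    have h3 : VK (bnd (T, q)) (s, 0, 0, 0) := by
      refine ⟨?_, ?_, ?_⟩
      · show 0 < bnd (T, q) + 5
        omega
      · show 0 < 4
        omega
      · show 0 < bnd (T, q) * bnd (T, q) + 3 * bnd (T, q) + 4
        omega
    cases b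
    · exact enc_lt h1 h3
    · exact enc_lt h2 h3
  refine ⟨fun i => (enc (bnd (T, q)) ((i : ℕ) + 1, 0, 0, 0) : ℝ) - 1 / 2, ?_⟩
  intro c hc
  obtain ⟨p, f, rfl⟩ := mem_chordsOf.1 hc
  have key : ∀ s : ℕ, lt4 (kend (bnd (T, q)) (elt T) (gam T) f false p) (s, 0, 0, 0) →
      ¬ lt4 (kend (bnd (T, q)) (elt T) (gam T) f true p) (s, 0, 0, 0) →
      ((chI (T, q) f p).1 : ℝ) < (enc (bnd (T, q)) (s, 0, 0, 0) : ℝ) - 1 / 2 ∧
      (enc (bnd (T, q)) (s, 0, 0, 0) : ℝ) - 1 / 2 < ((chI (T, q) f p).2 : ℝ) := by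
    intro s h1 h2
    rw [← hW f _ p s p.2] at h1 h2
    have h3 : (chI (T, q) f p).1 + 1 ≤ enc (bnd (T, q)) (s, 0, 0, 0) := h1
    have h4 : enc (bnd (T, q)) (s, 0, 0, 0) ≤ (chI (T, q) f p).2 := not_lt.1 h2
    have h5 : ((chI (T, q) f p).1 : ℝ) + 1 ≤ (enc (bnd (T, q)) (s, 0, 0, 0) : ℝ) := by
      exact_mod_cast h3
    have h6 : (enc (bnd (T, q)) (s, 0, 0, 0) : ℝ) ≤ ((chI (T, q) f p).2 : ℝ) := by
      exact_mod_cast h4
    constructor <;> linarith
  have h : (lt4 (kend (bnd (T, q)) (elt T) (gam T) f false p) (1, 0, 0, 0) ∧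
      ¬ lt4 (kend (bnd (T, q)) (elt T) (gam T) f true p) (1, 0, 0, 0)) ∨
      (lt4 (kend (bnd (T, q)) (elt T) (gam T) f false p) (2, 0, 0, 0) ∧
      ¬ lt4 (kend (bnd (T, q)) (elt T) (gam T) f true p) (2, 0, 0, 0)) := by
    fin_cases f <;> simp only [kend, cond_true, cond_false, Fin.zero_eta, Fin.mk_one,
      Fin.reduceFinMk, chk_0, chk_1, chk_2, chk_3, chk_4, chk_5, lt4] <;> omega
  rcases h with h | h
  · exact ⟨0, key 1 h.1 h.2⟩
  · exact ⟨1, key 2 h.1 h.2⟩

theorem isSegment_mono {C : List (ℕ × ℕ)} {g : ℕ} (hg : 3 ≤ g) (h : IsSegment 3 C) :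
    IsSegment g C := by
  obtain ⟨e, he⟩ := h
  refine ⟨fun i => if h : (i : ℕ) < 3 - 1 then e ⟨i, h⟩ else 0, fun c hc => ?_⟩
  obtain ⟨i, hi⟩ := he c hc
  refine ⟨⟨i, by omega⟩, ?_⟩
  have h1 : ((⟨i, by omega⟩ : Fin (g - 1)) : ℕ) < 3 - 1 := i.2
  simp only [dif_pos i.2]
  exact hi

open Classical in
/-- **Correctness of the reduction.** -/
theorem colourable_iff (hT : RolePr (T, q)) :
    Colourable (chordsOf (T, q)) (3 * T.length) ↔ X3C (T, q) := by
  rw [← pairs_iff hT]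
  have hN : 3 * T.length ≤ bnd (T, q) := by
    unfold bnd
    show 3 * T.length ≤ 3 * T.length + 3 * q
    omega
  constructor
  · rintro ⟨F, hF, hc⟩
    refine core_to (N := bnd (T, q)) (E := elt T) (g := gam T) hN (fun p hp => elt_lt_bnd hT hp)
      (fun p hp => elt_mod hT hp) (fun p _ => gam_lt p) (sum_gam hT).le
      (fun f p => ⟨F (chI (T, q) f p), hF _ (mem_chordsOf.2 ⟨p, f, rfl⟩)⟩) ?_
    intro f f' p p' hcr h
    exact hc _ (mem_chordsOf.2 ⟨p, f, rfl⟩) _ (mem_chordsOf.2 ⟨p', f', rfl⟩)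
      ((cross_iff hT f f' p.2 p'.2).2 hcr) (congrArg Fin.val h)
  · rintro ⟨A, B, hA, hB, hAB⟩
    obtain ⟨col, hcol⟩ := core_of (N := bnd (T, q)) (E := elt T) (g := gam T)
      (fun p hp => elt_lt_bnd hT hp) hA hB hAB
    let F : ℕ × ℕ → ℕ := fun c =>
      if h : ∃ fp : Fin 6 × Fin (3 * T.length), c = chI (T, q) fp.1 fp.2 then
        col (Classical.choose h).1 (Classical.choose h).2 else 0
    have hF : ∀ f (p : Fin (3 * T.length)), F (chI (T, q) f p) = col f p := by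
      intro f p
      have h : ∃ fp : Fin 6 × Fin (3 * T.length), chI (T, q) f p = chI (T, q) fp.1 fp.2 :=
        ⟨(f, p), rfl⟩
      simp only [F]
      rw [dif_pos h]
      have h1 := Classical.choose_spec h
      obtain ⟨h2, h3⟩ := chI_inj hT h1
      rw [← h2, ← h3]
    refine ⟨F, ?_, ?_⟩
    · intro c hc
      obtain ⟨p, f, rfl⟩ := mem_chordsOf.1 hc
      rw [hF]
      exact (col f p).2
    · intro a ha b hb hab h
      obtain ⟨p, f, rfl⟩ := mem_chordsOf.1 ha
      obtain ⟨p', f', rfl⟩ := mem_chordsOf.1 hb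
      rw [hF, hF] at h
      exact hcol f f' p p' ((cross_iff hT f f' p.2 p'.2).1 hab) (Fin.ext h)

end

end Pool.Agent.Q231.Seg
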