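import Pool.Agent.H632R2.X3C

/-!
# Exact covers whose triples have one element of each of three kinds

Three-dimensional matching, in the form of exact covers of `{0, ..., 3q - 1}` by triples `(a, b, c)`
with `a ≡ 0`, `b ≡ 1`, `c ≡ 2` modulo `3`.
-/

set_option autoImplicit false

namespace Pool.Agent.Q231.Seg

open Pool.Agent.NPC Pool.Agent.NPC.H632

/-- The promise: the components of a triple are below `3q` and are congruent to `0`, `1`, `2`, and
every number below `3q` occurs. -/
def RolePr (I : List (ℕ × ℕ × ℕ) × ℕ) : Prop :=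
  (∀ t ∈ I.1, t.1 % 3 = 0 ∧ t.2.1 % 3 = 1 ∧ t.2.2 % 3 = 2 ∧ ∀ x ∈ el t, x < 3 * I.2) ∧
  ∀ x < 3 * I.2, ∃ t ∈ I.1, x ∈ el t

def tipsL (m : ℕ) : List E3 :=
  (grid m).map (fun p => tip true p.1 p.2) ++ (grid m).map (fun p => tip false p.1 p.2)

def ysL (m : ℕ) : List E3 :=
  (grid m).map (fun p => ea p.1 p.2) ++ ((List.range m).map es1 ++
    (List.range (3 * m * m - m)).map eg1)

def zsL (m : ℕ) : List E3 :=
  (grid m).map (fun p => eb p.1 p.2) ++ ((List.range m).map es2 ++
    (List.range (3 * m * m - m)).map eg2)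

theorem perm_elems (m : ℕ) : (tipsL m ++ (ysL m ++ zsL m)).Perm (elems m) := by
  unfold tipsL ysL zsL elems
  rw [← Multiset.coe_eq_coe]
  simp only [← Multiset.coe_add]
  abel

theorem nodup3 (m : ℕ) : (tipsL m ++ (ysL m ++ zsL m)).Nodup :=
  (perm_elems m).nodup_iff.2 (elems_nodup m)

theorem tipsL_length (m : ℕ) : (tipsL m).length = 6 * m * m := by
  simp [tipsL, grid_length]
  ring

theorem ysL_length (m : ℕ) : (ysL m).length = 6 * m * m := by
  simp only [ysL, List.length_append, List.length_map, List.length_range, grid_length]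
  have : m ≤ 3 * m * m := by nlinarith [Nat.zero_le m, Nat.mul_self_le_mul_self (Nat.zero_le m)]
  zify [this]
  ring

theorem zsL_length (m : ℕ) : (zsL m).length = 6 * m * m := by
  simp only [zsL, List.length_append, List.length_map, List.length_range, grid_length]
  have : m ≤ 3 * m * m := by nlinarith [Nat.zero_le m, Nat.mul_self_le_mul_self (Nat.zero_le m)]
  zify [this]
  ring

open Classical in
/-- the numbering of the elements -/
noncomputable def num (m : ℕ) (e : E3) : ℕ :=
  if e ∈ tipsL m then 3 * index (tipsL m) e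
  else if e ∈ ysL m then 3 * index (ysL m) e + 1 else 3 * index (zsL m) e + 2

theorem num_tip {m : ℕ} {e : E3} (h : e ∈ tipsL m) : num m e = 3 * index (tipsL m) e := if_pos h

theorem num_ys {m : ℕ} {e : E3} (h : e ∈ ysL m) : num m e = 3 * index (ysL m) e + 1 := by
  have h1 : e ∉ tipsL m := fun h' =>
    (List.nodup_append'.1 (nodup3 m)).2.2 h' (List.mem_append_left _ h)
  unfold num
  rw [if_neg h1, if_pos h]

theorem num_zs {m : ℕ} {e : E3} (h : e ∈ zsL m) : num m e = 3 * index (zsL m) e + 2 := by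
  have h1 : e ∉ tipsL m := fun h' =>
    (List.nodup_append'.1 (nodup3 m)).2.2 h' (List.mem_append_right _ h)
  have h2 : e ∉ ysL m := fun h' =>
    (List.nodup_append'.1 (List.nodup_append'.1 (nodup3 m)).2.1).2.2 h' h
  unfold num
  rw [if_neg h1, if_neg h2]

theorem mem_cases {m : ℕ} {e : E3} (h : e ∈ elems m) : e ∈ tipsL m ∨ e ∈ ysL m ∨ e ∈ zsL m := by
  have := (perm_elems m).mem_iff.2 h
  simpa only [List.mem_append] using this

theorem num_lt {m : ℕ} {e : E3} (h : e ∈ elems m) : num m e < 3 * (6 * m * m) := by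
  rcases mem_cases h with h | h | h
  · rw [num_tip h]
    have := index_lt h
    rw [tipsL_length] at this
    omega
  · rw [num_ys h]
    have := index_lt h
    rw [ysL_length] at this
    omega
  · rw [num_zs h]
    have := index_lt h
    rw [zsL_length] at this
    omega

theorem num_inj {m : ℕ} {x y : E3} (hx : x ∈ elems m) (hy : y ∈ elems m) (h : num m x = num m y) :
    x = y := by
  rcases mem_cases hx with h1 | h1 | h1 <;> rcases mem_cases hy with h2 | h2 | h2
  · rw [num_tip h1, num_tip h2] at h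
    exact index_inj h1 h2 (by omega)
  · rw [num_tip h1, num_ys h2] at h
    omega
  · rw [num_tip h1, num_zs h2] at h
    omega
  · rw [num_ys h1, num_tip h2] at h
    omega
  · rw [num_ys h1, num_ys h2] at h
    exact index_inj h1 h2 (by omega)
  · rw [num_ys h1, num_zs h2] at h
    omega
  · rw [num_zs h1, num_tip h2] at h
    omega
  · rw [num_zs h1, num_ys h2] at h
    omega
  · rw [num_zs h1, num_zs h2] at h
    exact index_inj h1 h2 (by omega)

theorem perm_num (m : ℕ) : ((elems m).map (num m)).Perm (List.range (3 * (6 * m * m))) := by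
  have h1 : ((elems m).map (num m)).Nodup :=
    (List.nodup_map_iff_inj_on (elems_nodup m)).2 fun x hx y hy h => num_inj hx hy h
  have h2 : List.Subperm ((elems m).map (num m)) (List.range (3 * (6 * m * m))) := by
    apply List.subperm_of_subset h1
    intro x hx
    obtain ⟨e, he, rfl⟩ := List.mem_map.1 hx
    exact List.mem_range.2 (num_lt he)
  apply h2.perm_of_length_le
  rw [List.length_map, List.length_range, elems_length]

theorem XC_num {E : Type} {S : List (E × E × E)} {L : List E} {n : ℕ} {f : E → ℕ}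
    (hL : L.Nodup) (hinj : ∀ x ∈ L, ∀ y ∈ L, f x = f y → x = y) (hp : (L.map f).Perm (List.range n))
    (hS : ∀ t ∈ S, ∀ e ∈ el t, e ∈ L) :
    XC S L ↔ XC (S.map (fun t => (f t.1, f t.2.1, f t.2.2))) (List.range n) := by
  have hfl : ∀ C : List (E × E × E), (C.map (fun t => (f t.1, f t.2.1, f t.2.2))).flatMap el =
      (C.flatMap el).map f := by
    intro C
    induction C with
    | nil => rfl
    | cons t C ih => simp only [List.map_cons, List.flatMap_cons, List.map_append, ih]; rfl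
  constructor
  · rintro ⟨C, hC, hCp⟩
    refine ⟨C.map (fun t => (f t.1, f t.2.1, f t.2.2)), ?_, ?_⟩
    · intro t ht
      obtain ⟨s, hs, rfl⟩ := List.mem_map.1 ht
      exact List.mem_map_of_mem (hC s hs)
    · rw [hfl]
      exact (hCp.map f).trans hp
  · rintro ⟨C, hC, hCp⟩
    obtain ⟨D, hD, rfl⟩ := exists_preimage _ _ _ hC
    refine ⟨D, hD, ?_⟩
    rw [hfl] at hCp
    have hnd : (D.flatMap el).Nodup := List.Nodup.of_map f (hCp.nodup_iff.2 List.nodup_range)
    rw [List.perm_ext_iff_of_nodup hnd hL]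
    intro e
    constructor
    · intro he
      obtain ⟨t, ht, het⟩ := List.mem_flatMap.1 he
      exact hS t (hD t ht) e het
    · intro he
      have h1 : f e ∈ (D.flatMap el).map f :=
        hCp.mem_iff.2 (hp.mem_iff.1 (List.mem_map_of_mem he))
      obtain ⟨e', he', hfe⟩ := List.mem_map.1 h1
      obtain ⟨t, ht, het⟩ := List.mem_flatMap.1 he'
      rwa [← hinj e' (hS t (hD t ht) e' het) e he hfe]

/-- the kinds of the components of the triples -/
theorem trips_kind {φ : List (Lit ℕ × Lit ℕ × Lit ℕ)} (hb : Bounded3 φ) :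
    ∀ t ∈ trips φ, t.1 ∈ tipsL φ.length ∧ t.2.1 ∈ ysL φ.length ∧ t.2.2 ∈ zsL φ.length := by
  intro t ht
  have htip : ∀ s i j, i < 3 * φ.length → j < φ.length → tip s i j ∈ tipsL φ.length := by
    intro s i j hi hj
    unfold tipsL
    rw [List.mem_append]
    cases s
    · exact Or.inr (List.mem_map.2 ⟨(i, j), mem_grid.2 ⟨hi, hj⟩, rfl⟩)
    · exact Or.inl (List.mem_map.2 ⟨(i, j), mem_grid.2 ⟨hi, hj⟩, rfl⟩)
  have hea : ∀ i j, i < 3 * φ.length → j < φ.length → ea i j ∈ ysL φ.length := by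
    intro i j hi hj
    exact List.mem_append_left _ (List.mem_map.2 ⟨(i, j), mem_grid.2 ⟨hi, hj⟩, rfl⟩)
  have heb : ∀ i j, i < 3 * φ.length → j < φ.length → eb i j ∈ zsL φ.length := by
    intro i j hi hj
    exact List.mem_append_left _ (List.mem_map.2 ⟨(i, j), mem_grid.2 ⟨hi, hj⟩, rfl⟩)
  have hs1 : ∀ j, j < φ.length → es1 j ∈ ysL φ.length := by
    intro j hj
    exact List.mem_append_right _ (List.mem_append_left _
      (List.mem_map.2 ⟨j, List.mem_range.2 hj, rfl⟩))
  have hs2 : ∀ j, j < φ.length → es2 j ∈ zsL φ.length := by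
    intro j hj
    exact List.mem_append_right _ (List.mem_append_left _
      (List.mem_map.2 ⟨j, List.mem_range.2 hj, rfl⟩))
  have hg1 : ∀ k, k < 3 * φ.length * φ.length - φ.length → eg1 k ∈ ysL φ.length := by
    intro k hk
    exact List.mem_append_right _ (List.mem_append_right _
      (List.mem_map.2 ⟨k, List.mem_range.2 hk, rfl⟩))
  have hg2 : ∀ k, k < 3 * φ.length * φ.length - φ.length → eg2 k ∈ zsL φ.length := by
    intro k hk
    exact List.mem_append_right _ (List.mem_append_right _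
      (List.mem_map.2 ⟨k, List.mem_range.2 hk, rfl⟩))
  rcases mem_trips.1 ht with ⟨i, j, h1, h2, rfl | rfl⟩ | ⟨c, j, h1, h2⟩ | ⟨s, i, j, k, h1, h2, h3, rfl⟩
  · exact ⟨htip _ _ _ h1 h2, hea _ _ h1 h2, heb _ _ h1 h2⟩
  · exact ⟨htip _ _ _ h1 h2, hea _ _ h1 (Nat.mod_lt _ (by omega)), heb _ _ h1 h2⟩
  · have hj : j < φ.length := (List.getElem?_eq_some_iff.1 h1).1
    have hc := hb c (List.mem_of_getElem? h1)
    rcases h2 with rfl | rfl | rfl
    · exact ⟨htip _ _ _ hc.1 hj, hs1 _ hj, hs2 _ hj⟩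
    · exact ⟨htip _ _ _ hc.2.1 hj, hs1 _ hj, hs2 _ hj⟩
    · exact ⟨htip _ _ _ hc.2.2 hj, hs1 _ hj, hs2 _ hj⟩
  · exact ⟨htip _ _ _ h1 h2, hg1 _ h3, hg2 _ h3⟩

/-- every element occurs -/
theorem trips_all {φ : List (Lit ℕ × Lit ℕ × Lit ℕ)} (hne : φ ≠ []) :
    ∀ e ∈ elems φ.length, ∃ t ∈ trips φ, e ∈ el t := by
  have hm0 : 0 < φ.length := List.length_pos_iff.2 hne
  intro e he
  rcases mem_elems.1 he with ⟨i, j, h1, h2, rfl | rfl | ⟨s, rfl⟩⟩ | ⟨j, h1, rfl | rfl⟩ |
    ⟨k, h1, rfl | rfl⟩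
  · exact ⟨tT i j, mem_trips.2 (Or.inl ⟨i, j, h1, h2, Or.inl rfl⟩), by simp [tT, el]⟩
  · exact ⟨tT i j, mem_trips.2 (Or.inl ⟨i, j, h1, h2, Or.inl rfl⟩), by simp [tT, el]⟩
  · cases s
    · exact ⟨tT i j, mem_trips.2 (Or.inl ⟨i, j, h1, h2, Or.inl rfl⟩), by simp [tT, el]⟩
    · exact ⟨tF φ.length i j, mem_trips.2 (Or.inl ⟨i, j, h1, h2, Or.inr rfl⟩), by simp [tF, el]⟩
  · exact ⟨tC φ[j].1 j, mem_trips.2 (Or.inr (Or.inl ⟨_, j, List.getElem?_eq_getElem h1,
      Or.inl rfl⟩)), by simp [tC, el]⟩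
  · exact ⟨tC φ[j].1 j, mem_trips.2 (Or.inr (Or.inl ⟨_, j, List.getElem?_eq_getElem h1,
      Or.inl rfl⟩)), by simp [tC, el]⟩
  · exact ⟨tG true 0 0 k, mem_trips.2 (Or.inr (Or.inr ⟨_, 0, 0, k, by omega, hm0, h1, rfl⟩)),
      by simp [tG, el]⟩
  · exact ⟨tG true 0 0 k, mem_trips.2 (Or.inr (Or.inr ⟨_, 0, 0, k, by omega, hm0, h1, rfl⟩)),
      by simp [tG, el]⟩

/-- the renaming of a triple -/
noncomputable def ren3 (m : ℕ) (t : E3 × E3 × E3) : ℕ × ℕ × ℕ :=
  (3 * index (tipsL m) t.1, 3 * index (ysL m) t.2.1 + 1, 3 * index (zsL m) t.2.2 + 2)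

/-- the reduction -/
noncomputable def red3 (φ : List (Lit ℕ × Lit ℕ × Lit ℕ)) : List (ℕ × ℕ × ℕ) × ℕ :=
  ((trips φ).map (ren3 φ.length), 6 * φ.length * φ.length)

theorem poly_tipsL {α : Type} [TEnc α] {n : α → ℕ} (hn : UPoly n) : Poly (fun a => tipsL (n a)) := by
  have h1 := poly_range_mul hn
  unfold tipsL tip
  simp only [cond_true, cond_false]
  fun_prop

theorem poly_ysL {α : Type} [TEnc α] {n : α → ℕ} (hn : UPoly n) : Poly (fun a => ysL (n a)) := by
  have h1 := poly_range_mul hn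
  have h2 := UPoly.range hn
  have h3 := UPoly.range (uG hn)
  unfold ysL ea es1 eg1
  fun_prop

theorem poly_zsL {α : Type} [TEnc α] {n : α → ℕ} (hn : UPoly n) : Poly (fun a => zsL (n a)) := by
  have h1 := poly_range_mul hn
  have h2 := UPoly.range hn
  have h3 := UPoly.range (uG hn)
  unfold zsL eb es2 eg2
  fun_prop

theorem poly_red3 : Poly red3 := by
  have hl : UPoly (fun φ : List (Lit ℕ × Lit ℕ × Lit ℕ) => φ.length) := UPoly.length Poly.id
  have h1 := poly_tipsL hl
  have h1' : Poly (fun p : List (Lit ℕ × Lit ℕ × Lit ℕ) × (E3 × E3 × E3) => tipsL p.1.length) :=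
    h1.comp (Poly.fst Poly.id)
  have h2 := poly_ysL hl
  have h2' : Poly (fun p : List (Lit ℕ × Lit ℕ × Lit ℕ) × (E3 × E3 × E3) => ysL p.1.length) :=
    h2.comp (Poly.fst Poly.id)
  have h3 := poly_zsL hl
  have h3' : Poly (fun p : List (Lit ℕ × Lit ℕ × Lit ℕ) × (E3 × E3 × E3) => zsL p.1.length) :=
    h3.comp (Poly.fst Poly.id)
  unfold red3 ren3
  refine Poly.pair (NPC.Poly.map poly_trips ?_) ?_
  · have a1 := Poly.index h1' (by fun_prop : Poly (fun p : List (Lit ℕ × Lit ℕ × Lit ℕ) ×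
      (E3 × E3 × E3) => p.2.1))
    have a2 := Poly.index h2' (by fun_prop : Poly (fun p : List (Lit ℕ × Lit ℕ × Lit ℕ) ×
      (E3 × E3 × E3) => p.2.2.1))
    have a3 := Poly.index h3' (by fun_prop : Poly (fun p : List (Lit ℕ × Lit ℕ × Lit ℕ) ×
      (E3 × E3 × E3) => p.2.2.2))
    fun_prop
  · fun_prop

theorem red3_eq {φ : List (Lit ℕ × Lit ℕ × Lit ℕ)} (hb : Bounded3 φ) :
    (red3 φ).1 = (trips φ).map
      (fun t => (num φ.length t.1, num φ.length t.2.1, num φ.length t.2.2)) := by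
  unfold red3
  apply List.map_congr_left
  intro t ht
  obtain ⟨h1, h2, h3⟩ := trips_kind hb t ht
  rw [num_tip h1, num_ys h2, num_zs h3]
  rfl

/-- **Three-dimensional matching is NP-hard.** -/
theorem hardPr_role : HardPr RolePr X3C := by
  refine hardPr_SAT3b.trans poly_red3 ?_ ?_
  · rintro φ ⟨_, hb, hne⟩
    refine ⟨?_, ?_⟩
    · intro t ht
      have ht' := ht
      rw [red3_eq hb] at ht'
      obtain ⟨s, hs, rfl⟩ := List.mem_map.1 ht'
      obtain ⟨h1, h2, h3⟩ := trips_kind hb s hs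
      refine ⟨?_, ?_, ?_, ?_⟩
      · show num φ.length s.1 % 3 = 0
        rw [num_tip h1]
        omega
      · show num φ.length s.2.1 % 3 = 1
        rw [num_ys h2]
        omega
      · show num φ.length s.2.2 % 3 = 2
        rw [num_zs h3]
        omega
      · intro x hx
        have h4 := trips_sub hb s hs
        have h5 : ∀ e ∈ el s, num φ.length e < 3 * (6 * φ.length * φ.length) :=
          fun e he => num_lt (h4 e he)
        simp only [el, List.mem_cons, List.not_mem_nil, or_false] at hx h5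
        rcases hx with rfl | rfl | rfl
        · exact h5 _ (Or.inl rfl)
        · exact h5 _ (Or.inr (Or.inl rfl))
        · exact h5 _ (Or.inr (Or.inr rfl))
    · intro x hx
      have h1 : x ∈ (elems φ.length).map (num φ.length) :=
        (perm_num φ.length).mem_iff.2 (List.mem_range.2 hx)
      obtain ⟨e, he, rfl⟩ := List.mem_map.1 h1
      obtain ⟨t, ht, het⟩ := trips_all hne e he
      rw [red3_eq hb]
      refine ⟨_, List.mem_map_of_mem ht, ?_⟩
      simp only [el, List.mem_cons, List.not_mem_nil, or_false] at het ⊢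
      rcases het with rfl | rfl | rfl
      · exact Or.inl rfl
      · exact Or.inr (Or.inl rfl)
      · exact Or.inr (Or.inr rfl)
  · rintro φ ⟨_, hb, hne⟩
    show SAT3 φ ↔ XC (red3 φ).1 (List.range (3 * (6 * φ.length * φ.length)))
    rw [red3_eq hb, ← XC_num (elems_nodup _) (fun x hx y hy h => num_inj hx hy h) (perm_num _)
      (trips_sub hb)]
    exact ⟨sat_to_cover hb hne, cover_to_sat hb⟩

end Pool.Agent.Q231.Seg
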